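import Pool.Agent.Lib.MP_4dddeb_co.Structure

/-!
Edge numbers of the edge-maximal graphs for the set `bigFeedback`.
-/

namespace Pool.Agent.Lib.MP_4dddeb_co

open SimpleGraph Filter

theorem minorFree_iff {V : Type*} (G : SimpleGraph V) :
    MinorFree bigFeedback G ↔ Free G Set.univ := by
  constructor
  · intro h X hX hm; exact h X hX ((isMinor_iff _ _).2 hm)
  · intro h X hX hm; exact h X hX ((isMinor_iff _ _).1 hm)

theorem edgeMaximal_iff {V : Type*} (G : SimpleGraph V) :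
    EdgeMaximal bigFeedback G ↔ Max G Set.univ := by
  unfold EdgeMaximal Max
  simp only [minorFree_iff, Set.mem_univ, true_implies]

theorem edgesIn_univ {V : Type*} (G : SimpleGraph V) : edgesIn G Set.univ = G.edgeSet := by
  ext e; simp [edgesIn]

/-- The structure theorem for whole graphs. -/
theorem edge_count {n : ℕ} (hn : 3 ≤ n) {G : SimpleGraph (Fin n)}
    (hG : EdgeMaximal bigFeedback G) : ∃ b, G.edgeSet.ncard + 3 * b = 3 * (n - 1) ∧ 1 ≤ b ∧
      ∀ F : Finset (Finset (Fin n)), CliqueFamily G Set.univ F → F.card ≤ b := by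
  rw [edgeMaximal_iff] at hG
  have hc : (Set.univ : Set (Fin n)).ncard = n := by simp [Set.ncard_univ]
  obtain ⟨b, h1, h2, h3⟩ := structure_thm n Set.univ hc hn G hG
  rw [edgesIn_univ] at h1
  exact ⟨b, h1, h2, h3⟩

theorem exists_edgeMaximal {n : ℕ} {G0 : SimpleGraph (Fin n)} (h : Free G0 Set.univ) :
    ∃ G, G0 ≤ G ∧ EdgeMaximal bigFeedback G := by
  obtain ⟨G, hle, hG⟩ := Finite.exists_le_maximal (p := fun G : SimpleGraph (Fin n) =>
    Free G Set.univ) h
  refine ⟨G, hle, ?_⟩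
  rw [edgeMaximal_iff]
  refine ⟨hG.1, ?_⟩
  intro a _ b _ hab hnadj hfree
  have h1 := hG.2 hfree le_sup_left
  apply hnadj
  apply h1
  rw [sup_edge_adj'']
  exact Or.inr ⟨hab, Or.inl ⟨rfl, rfl⟩⟩

/-- three vertices joined to everything -/
def tripod (n : ℕ) : SimpleGraph (Fin n) where
  Adj a b := a ≠ b ∧ ((a : ℕ) < 3 ∨ (b : ℕ) < 3)
  symm := ⟨fun _ _ h => ⟨h.1.symm, h.2.symm⟩⟩
  loopless := ⟨fun _ h => h.1 rfl⟩

theorem free_tripod {n : ℕ} (hn : 3 ≤ n) : Free (tripod n) Set.univ := by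
  apply Free.of_acyclic (a := ⟨0, by omega⟩) (b := ⟨1, by omega⟩)
  have h := isAcyclic_starGraph (⟨2, by omega⟩ : Fin n)
  refine (h.induce (Set.univ \ {⟨0, by omega⟩, ⟨1, by omega⟩})).anti ?_
  rintro ⟨a, ha⟩ ⟨b, hb⟩ hab
  have hab' : a ≠ b ∧ ((a : ℕ) < 3 ∨ (b : ℕ) < 3) := hab
  show (starGraph _).Adj a b
  rw [starGraph_adj]
  simp only [Set.mem_sdiff, Set.mem_univ, true_and, Set.mem_insert_iff,
    Set.mem_singleton_iff, not_or, Fin.ext_iff] at ha hb
  refine ⟨hab'.1, ?_⟩
  rw [Fin.ext_iff, Fin.ext_iff]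
  show (a : ℕ) = 2 ∨ (b : ℕ) = 2
  have h2 := hab'.2
  have ha1 : (a : ℕ) ≠ 0 := ha.1
  have ha2 : (a : ℕ) ≠ 1 := ha.2
  have hb1 : (b : ℕ) ≠ 0 := hb.1
  have hb2 : (b : ℕ) ≠ 1 := hb.2
  omega

theorem ncard_tripod {n : ℕ} (hn : 3 ≤ n) : 3 * (n - 3) ≤ (tripod n).edgeSet.ncard := by
  classical
  set g : Fin 3 × Fin (n - 3) → Sym2 (Fin n) := fun p =>
    s(⟨p.1, by have := p.1.2; omega⟩, ⟨p.2 + 3, by have := p.2.2; omega⟩) with hg
  have hinj : Function.Injective g := by
    rintro ⟨i, j⟩ ⟨i', j'⟩ h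
    simp only [hg, Sym2.eq_iff, Fin.mk.injEq] at h
    have h1 := i.2
    have h2 := i'.2
    rcases h with ⟨h3, h4⟩ | ⟨h3, h4⟩
    · refine Prod.ext (Fin.ext h3) (Fin.ext ?_)
      show (j : ℕ) = j'
      omega
    · exfalso; omega
  have hsub : ((Finset.univ.image g : Finset (Sym2 (Fin n))) : Set (Sym2 (Fin n)))
      ⊆ (tripod n).edgeSet := by
    intro e he
    rw [Finset.mem_coe, Finset.mem_image] at he
    obtain ⟨⟨i, j⟩, -, rfl⟩ := he
    rw [mem_edgeSet]
    refine ⟨?_, Or.inl i.2⟩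
    rw [ne_eq, Fin.mk.injEq]
    have := i.2
    omega
  have hle := Set.ncard_le_ncard hsub (Set.toFinite _)
  rw [Set.ncard_coe_finset, Finset.card_image_of_injective _ hinj] at hle
  simpa using hle

/-- disjoint cliques with four vertices -/
def blocks (n : ℕ) : SimpleGraph (Fin n) where
  Adj a b := a ≠ b ∧ (a : ℕ) / 4 = (b : ℕ) / 4
  symm := ⟨fun _ _ h => ⟨h.1.symm, h.2.symm⟩⟩
  loopless := ⟨fun _ h => h.1 rfl⟩

theorem free_blocks (n : ℕ) : Free (blocks n) Set.univ := by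
  classical
  rintro ⟨m, H⟩ ⟨hH, hH2⟩ ⟨B, -, hconn, hdisj, hadj⟩
  have hm : 3 ≤ m := hH.1
  have hin : ∀ w, ∀ a ∈ B w, ∀ b ∈ B w, (a : ℕ) / 4 = (b : ℕ) / 4 := by
    intro w a ha b hb
    have hr := (hconn w).2 a ha b hb
    unfold Reach at hr
    clear hb
    induction hr with
    | refl => rfl
    | tail _ h ih => exact ih.trans h.1.2
  choose r hr using fun w => (hconn w).1
  have hrr : ∀ w w', (r w : ℕ) / 4 = (r w' : ℕ) / 4 := by
    intro w w'
    have h1 : H.Reachable w w' := hH.2.1.preconnected w w'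
    rw [reachable_iff_reflTransGen] at h1
    induction h1 with
    | refl => rfl
    | @tail u v _ huv ih =>
      obtain ⟨a, ha, b, hb, hab⟩ := hadj u v huv
      rw [ih, hin u (r u) (hr u) a ha, hab.2, hin v b hb (r v) (hr v)]
  have hrinj : Function.Injective r := by
    intro w w' h
    by_contra hne
    exact Set.disjoint_left.1 (hdisj w w' hne) (hr w) (h ▸ hr w')
  have hm4 : m ≤ 4 := by
    have hlt : ∀ w : Fin m, (r w : ℕ) % 4 < 4 := fun w => Nat.mod_lt _ (by norm_num)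
    have hinj2 : Function.Injective (fun w : Fin m => (⟨(r w : ℕ) % 4, hlt w⟩ : Fin 4)) := by
      intro w w' h
      simp only [Fin.mk.injEq] at h
      apply hrinj
      apply Fin.ext
      have := hrr w w'
      omega
    simpa using Fintype.card_le_of_injective _ hinj2
  refine hH2 ⟨0, by show 0 < m; omega⟩ ⟨1, by show 1 < m; omega⟩ ?_
  apply IsAcyclic.of_card_le_two
  have hcard : Nat.card ↑({⟨0, by show 0 < m; omega⟩, ⟨1, by show 1 < m; omega⟩}ᶜ : Set (Fin m)) ≤ 2 := by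
    have h1 := Set.ncard_add_ncard_compl ({⟨0, by omega⟩, ⟨1, by omega⟩} : Set (Fin m))
    rw [Set.ncard_pair (by simp), Nat.card_eq_fintype_card, Fintype.card_fin] at h1
    have h2 : ({⟨0, by omega⟩, ⟨1, by omega⟩}ᶜ : Set (Fin m)).ncard ≤ 2 := by omega
    exact h2
  rw [ENat.card_eq_coe_natCard]
  exact_mod_cast hcard

theorem cliqueFamily_blocks {n : ℕ} {G : SimpleGraph (Fin n)} (hG : blocks n ≤ G) :
    ∃ F : Finset (Finset (Fin n)), CliqueFamily G Set.univ F ∧ F.card = n / 4 := by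
  classical
  set K : Fin (n / 4) → Finset (Fin n) := fun i =>
    Finset.univ.image (fun j : Fin 4 => (⟨4 * i + j, by have := i.2; have := j.2; omega⟩ : Fin n))
    with hK
  have hmem : ∀ i z, z ∈ K i ↔ (z : ℕ) / 4 = i := by
    intro i z
    rw [hK]
    simp only [Finset.mem_image, Finset.mem_univ, true_and]
    constructor
    · rintro ⟨j, rfl⟩
      have := j.2
      show (4 * (i : ℕ) + j) / 4 = i
      omega
    · intro h
      refine ⟨⟨(z : ℕ) % 4, Nat.mod_lt _ (by norm_num)⟩, Fin.ext ?_⟩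
      show 4 * (i : ℕ) + (z : ℕ) % 4 = z
      omega
  have hKinj : Function.Injective K := by
    intro i i' h
    have h1 : (⟨4 * i, by have := i.2; omega⟩ : Fin n) ∈ K i := by
      rw [hmem]; show 4 * (i : ℕ) / 4 = i; omega
    rw [h, hmem] at h1
    apply Fin.ext
    have h2 : 4 * (i : ℕ) / 4 = i' := h1
    omega
  refine ⟨Finset.univ.image K, ⟨?_, ?_⟩, ?_⟩
  · intro L hL
    rw [Finset.mem_image] at hL
    obtain ⟨i, -, rfl⟩ := hL
    refine ⟨Set.subset_univ _, ?_, ?_⟩
    · rw [hK]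
      show (Finset.univ.image _).card = 4
      rw [Finset.card_image_of_injective]
      · simp
      · intro j j' h
        simp only [Fin.mk.injEq] at h
        exact Fin.ext (by omega)
    · intro p hp q hq hpq
      rw [hmem] at hp hq
      exact hG ⟨hpq, hp.trans hq.symm⟩
  · intro L hL L' hL' hne
    rw [Finset.mem_image] at hL hL'
    obtain ⟨i, -, rfl⟩ := hL
    obtain ⟨i', -, rfl⟩ := hL'
    rw [Finset.disjoint_left]
    intro z hz hz'
    rw [hmem] at hz hz'
    exact hne (congrArg K (Fin.ext (hz.symm.trans hz')))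
  · rw [Finset.card_image_of_injective _ hKinj]; simp

theorem suitable_bigFeedback : Suitable bigFeedback := by
  constructor
  · -- the complete graph on five vertices
    refine ⟨⟨5, ⊤⟩, ⟨by norm_num, connected_top, ?_⟩, ?_⟩
    · intro v
      have : Nonempty ↑({v}ᶜ : Set (Fin 5)) := by
        obtain ⟨w, hw⟩ := exists_ne v
        exact ⟨⟨w, hw⟩⟩
      rw [conn_iff]
      refine ⟨Set.nonempty_coe_sort.1 this, ?_⟩
      intro a ha b hb
      by_cases hab : a = b
      · rw [hab]; exact Relation.ReflTransGen.refl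
      · exact Relation.ReflTransGen.single ⟨hab, ha, hb⟩
    · intro a b hac
      have h3 : 3 ≤ (({a, b}ᶜ : Finset (Fin 5))).card := by
        rw [Finset.card_compl]
        have := Finset.card_le_two (a := a) (b := b)
        simp only [Fintype.card_fin]
        omega
      obtain ⟨t, ht, htc⟩ := Finset.exists_subset_card_eq h3
      obtain ⟨p, q, r, hpq, hpr, hqr, rfl⟩ := Finset.card_eq_three.1 htc
      have hmem : ∀ z ∈ ({p, q, r} : Finset (Fin 5)), z ∈ ({a, b}ᶜ : Set (Fin 5)) := by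
        intro z hz
        have := ht hz
        simpa using this
      have hfree := hac.cliqueFree (n := 3) le_rfl
      apply hfree {⟨p, hmem p (by simp)⟩, ⟨q, hmem q (by simp)⟩, ⟨r, hmem r (by simp)⟩}
      rw [is3Clique_triple_iff]
      exact ⟨hpq, hpr, hqr⟩
  · rintro ⟨m, H⟩ ⟨⟨hm, hc, -⟩, -⟩
    have hm' : 3 ≤ m := hm
    have h1 : H.Reachable (⟨0, by omega⟩ : Fin m) ⟨1, by omega⟩ := hc.preconnected _ _
    rw [reachable_iff_reflTransGen] at h1
    by_contra hcon
    push Not at hcon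
    have key : ∀ w : Fin m, Relation.ReflTransGen H.Adj (⟨0, by omega⟩ : Fin m) w →
        w = ⟨0, by omega⟩ := by
      intro w hw
      induction hw with
      | refl => rfl
      | tail _ h _ => exact absurd h (hcon _ _)
    have := key _ h1
    simp at this

end Pool.Agent.Lib.MP_4dddeb_co
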