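import Mathlib

/-!
Definitions for problem MP_4dddeb_co: minors, edge-maximal graphs without a minor in a given set,
the set of edge numbers and its gap.
-/

namespace Pool.Agent.Lib.MP_4dddeb_co

open Filter

/-- A finite simple graph, given up to isomorphism: a number `m` of vertices and a simple graph on
the vertex set `Fin m`. -/
abbrev FinGraph : Type := Σ m : ℕ, SimpleGraph (Fin m)

/-- `H` is a minor of `G`: there are pairwise disjoint sets of vertices of `G`, one for each vertex
of `H`, each of which induces a (nonempty) connected subgraph of `G`, such that for adjacent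
vertices of `H` there is an edge of `G` between the corresponding sets. -/
def IsMinor {W V : Type*} (H : SimpleGraph W) (G : SimpleGraph V) : Prop :=
  ∃ B : W → Set V, (∀ w, (G.induce (B w)).Connected) ∧
    (∀ w w', w ≠ w' → Disjoint (B w) (B w')) ∧
    ∀ w w', H.Adj w w' → ∃ a ∈ B w, ∃ b ∈ B w', G.Adj a b

/-- `G` has no minor in the set `ℋ`. -/
def MinorFree (ℋ : Set FinGraph) {V : Type*} (G : SimpleGraph V) : Prop :=
  ∀ H ∈ ℋ, ¬ IsMinor H.2 G

/-- `G` is edge-maximal `ℋ`-free: it has no minor in `ℋ`, and adding any edge between two distinct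
non-adjacent vertices creates a minor in `ℋ`. -/
def EdgeMaximal (ℋ : Set FinGraph) {V : Type*} (G : SimpleGraph V) : Prop :=
  MinorFree ℋ G ∧ ∀ a b, a ≠ b → ¬ G.Adj a b → ¬ MinorFree ℋ (G ⊔ SimpleGraph.edge a b)

/-- A suitable set of graphs: non-empty, and every graph in it has at least one edge. -/
def Suitable (ℋ : Set FinGraph) : Prop :=
  ℋ.Nonempty ∧ ∀ H ∈ ℋ, ∃ a b, H.2.Adj a b

/-- `E_ℋ(n)`: the set of the numbers of edges of the edge-maximal `ℋ`-free graphs with `n`
vertices. -/
def edgeNumbers (ℋ : Set FinGraph) (n : ℕ) : Set ℕ :=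
  {k | ∃ G : SimpleGraph (Fin n), EdgeMaximal ℋ G ∧ G.edgeSet.ncard = k}

/-- `gap_ℋ(n)`: the largest minus the smallest element of `E_ℋ(n)`. -/
noncomputable def gap (ℋ : Set FinGraph) (n : ℕ) : ℕ :=
  sSup (edgeNumbers ℋ n) - sInf (edgeNumbers ℋ n)

/-- The class of `ℋ`-free graphs is linearly impure: `liminf gap_ℋ(n) / n > 0`. -/
def LinearlyImpure (ℋ : Set FinGraph) : Prop :=
  0 < liminf (fun n : ℕ => (gap ℋ n : ENNReal) / (n : ENNReal)) atTop

end Pool.Agent.Lib.MP_4dddeb_co
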