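import Pool.Agent.Lib.MP_4dddeb_co.Defs

/-!
Definition for problem MP_4dddeb_co: 2-connected graphs.
-/

namespace Pool.Agent.Lib.MP_4dddeb_co

/-- The graph is 2-connected: at least three vertices, connected, and deleting any one vertex
leaves a connected graph. -/
def TwoConnected {m : ℕ} (H : SimpleGraph (Fin m)) : Prop :=
  3 ≤ m ∧ H.Connected ∧ ∀ v, (H.induce ({v}ᶜ : Set (Fin m))).Connected

end Pool.Agent.Lib.MP_4dddeb_co
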