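import Pool.Agent.Lib.MP_4dddeb_co.DefsTwoConn

/-!
Minors inside a set of vertices, separations at a cut vertex, minors of forests.
-/

namespace Pool.Agent.Lib.MP_4dddeb_co

open SimpleGraph

variable {V W : Type*}

/-- reachability inside a set -/
def Reach (G : SimpleGraph V) (B : Set V) : V → V → Prop :=
  Relation.ReflTransGen (fun p q => G.Adj p q ∧ p ∈ B ∧ q ∈ B)

theorem Reach.symm {G : SimpleGraph V} {B : Set V} {u v : V} (h : Reach G B u v) :
    Reach G B v u := by
  unfold Reach at *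
  induction h with
  | refl => exact Relation.ReflTransGen.refl
  | tail _ h ih => exact Relation.ReflTransGen.head ⟨h.1.symm, h.2.2, h.2.1⟩ ih

theorem Reach.trans {G : SimpleGraph V} {B : Set V} {u v w : V} (h : Reach G B u v)
    (h' : Reach G B v w) : Reach G B u w := Relation.ReflTransGen.trans h h'

theorem Reach.mono {G G' : SimpleGraph V} {B B' : Set V}
    (h1 : ∀ a b, a ∈ B → b ∈ B → G.Adj a b → G'.Adj a b ∧ a ∈ B' ∧ b ∈ B') {u v : V}
    (h : Reach G B u v) : Reach G' B' u v := by
  unfold Reach at *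
  induction h with
  | refl => exact Relation.ReflTransGen.refl
  | tail _ h ih => exact Relation.ReflTransGen.tail ih (h1 _ _ h.2.1 h.2.2 h.1)

/-- A non-empty set inducing a connected subgraph. -/
def Conn (G : SimpleGraph V) (B : Set V) : Prop :=
  B.Nonempty ∧ ∀ u ∈ B, ∀ v ∈ B, Reach G B u v

theorem conn_iff (G : SimpleGraph V) (B : Set V) : (G.induce B).Connected ↔ Conn G B := by
  constructor
  · intro h
    refine ⟨?_, ?_⟩
    · obtain ⟨x, hx⟩ := h.nonempty; exact ⟨x, hx⟩
    · intro u hu v hv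
      have h1 : (G.induce B).Reachable ⟨u, hu⟩ ⟨v, hv⟩ := h.preconnected _ _
      rw [reachable_iff_reflTransGen] at h1
      have : ∀ x y : B, Relation.ReflTransGen (G.induce B).Adj x y → Reach G B x y := by
        intro x y hxy
        induction hxy with
        | refl => exact Relation.ReflTransGen.refl
        | tail _ h ih => exact Relation.ReflTransGen.tail ih ⟨h, Subtype.property _, Subtype.property _⟩
      exact this _ _ h1
  · rintro ⟨⟨x, hx⟩, h⟩
    have : Nonempty B := ⟨⟨x, hx⟩⟩
    refine ⟨?_⟩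
    rintro ⟨u, hu⟩ ⟨v, hv⟩
    have key : ∀ w, Reach G B u w → ∀ hw : w ∈ B, (G.induce B).Reachable ⟨u, hu⟩ ⟨w, hw⟩ := by
      intro w hw
      induction hw with
      | refl => intro _; exact Reachable.refl _
      | tail _ h ih =>
        intro hw
        exact (ih h.2.1).trans (Adj.reachable (by simpa using h.1))
    exact key v (h u hu v hv) hv

theorem conn_congr {G G' : SimpleGraph V} {B : Set V}
    (h : ∀ a ∈ B, ∀ b ∈ B, (G.Adj a b ↔ G'.Adj a b)) : Conn G B ↔ Conn G' B := by
  constructor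
  · rintro ⟨h1, h2⟩
    exact ⟨h1, fun u hu v hv => (h2 u hu v hv).mono fun a b ha hb hab => ⟨(h a ha b hb).1 hab, ha, hb⟩⟩
  · rintro ⟨h1, h2⟩
    exact ⟨h1, fun u hu v hv => (h2 u hu v hv).mono fun a b ha hb hab => ⟨(h a ha b hb).2 hab, ha, hb⟩⟩

/-- `H` is a minor of the subgraph of `G` induced by `S`. -/
def MinorIn (H : SimpleGraph W) (G : SimpleGraph V) (S : Set V) : Prop :=
  ∃ B : W → Set V, (∀ w, B w ⊆ S) ∧ (∀ w, Conn G (B w)) ∧
    (∀ w w', w ≠ w' → Disjoint (B w) (B w')) ∧
    ∀ w w', H.Adj w w' → ∃ a ∈ B w, ∃ b ∈ B w', G.Adj a b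

theorem isMinor_iff (H : SimpleGraph W) (G : SimpleGraph V) :
    IsMinor H G ↔ MinorIn H G Set.univ := by
  constructor
  · rintro ⟨B, h1, h2, h3⟩
    exact ⟨B, fun _ => Set.subset_univ _, fun w => (conn_iff _ _).1 (h1 w), h2, h3⟩
  · rintro ⟨B, -, h1, h2, h3⟩
    exact ⟨B, fun w => (conn_iff _ _).2 (h1 w), h2, h3⟩

theorem MinorIn.mono {H : SimpleGraph W} {G G' : SimpleGraph V} {S S' : Set V} (hS : S ⊆ S')
    (hG : ∀ a ∈ S, ∀ b ∈ S, G.Adj a b → G'.Adj a b) (h : MinorIn H G S) : MinorIn H G' S' := by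
  obtain ⟨B, h0, h1, h2, h3⟩ := h
  refine ⟨B, fun w => (h0 w).trans hS, fun w => ⟨(h1 w).1, fun u hu v hv =>
    ((h1 w).2 u hu v hv).mono fun a b ha hb hab => ⟨hG a (h0 w ha) b (h0 w hb) hab, ha, hb⟩⟩,
    h2, fun w w' hw => ?_⟩
  obtain ⟨a, ha, b, hb, hab⟩ := h3 w w' hw
  exact ⟨a, ha, b, hb, hG a (h0 w ha) b (h0 w' hb) hab⟩

/-- A separation of `S` at the vertex `x`. -/
structure Sep (G : SimpleGraph V) (S S1 S2 : Set V) (x : V) : Prop where
  union : S1 ∪ S2 = S
  inter : S1 ∩ S2 = {x}
  noedge : ∀ a ∈ S1, ∀ b ∈ S2, a ≠ x → b ≠ x → ¬ G.Adj a b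

theorem Sep.symm {G : SimpleGraph V} {S S1 S2 : Set V} {x : V} (h : Sep G S S1 S2 x) :
    Sep G S S2 S1 x :=
  ⟨by rw [Set.union_comm]; exact h.union, by rw [Set.inter_comm]; exact h.inter,
    fun a ha b hb hax hbx hab => h.noedge b hb a ha hbx hax hab.symm⟩

theorem Sep.mem1 {G : SimpleGraph V} {S S1 S2 : Set V} {x : V} (h : Sep G S S1 S2 x) : x ∈ S1 := by
  have : x ∈ S1 ∩ S2 := by rw [h.inter]; rfl
  exact this.1

theorem Sep.mem2 {G : SimpleGraph V} {S S1 S2 : Set V} {x : V} (h : Sep G S S1 S2 x) : x ∈ S2 :=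
  h.symm.mem1

theorem Sep.eq_of_mem {G : SimpleGraph V} {S S1 S2 : Set V} {x y : V} (h : Sep G S S1 S2 x)
    (h1 : y ∈ S1) (h2 : y ∈ S2) : y = x := by
  have : y ∈ S1 ∩ S2 := ⟨h1, h2⟩
  rw [h.inter] at this
  exact this

/-- A connected set avoiding the cut vertex lies on one side. -/
theorem Sep.side {G : SimpleGraph V} {S S1 S2 : Set V} {x : V} (h : Sep G S S1 S2 x)
    {B : Set V} (hB : Conn G B) (hBS : B ⊆ S) (hx : x ∉ B) {u : V} (hu : u ∈ B) (hu1 : u ∈ S1) :
    B ⊆ S1 := by
  intro v hv
  have key : ∀ w, Reach G B u w → w ∈ S1 := by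
    intro w hw
    unfold Reach at hw
    induction hw with
    | refl => exact hu1
    | @tail b c _ hbc ih =>
      have hc : c ∈ S1 ∪ S2 := by rw [h.union]; exact hBS hbc.2.2
      rcases hc with hc | hc
      · exact hc
      · exfalso
        refine h.noedge b ih c hc ?_ ?_ hbc.1
        · rintro rfl; exact hx hbc.2.1
        · rintro rfl; exact hx hbc.2.2
  exact key v (hB.2 u hu v hv)

theorem minorIn_of_sep_aux {G : SimpleGraph V} {S S1 S2 : Set V} {x : V}
    (h : Sep G S S1 S2 x) {H : SimpleGraph W} {B : W → Set V}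
    (hBS : ∀ w, B w ⊆ S) (hconn : ∀ w, Conn G (B w))
    (hdisj : ∀ w w', w ≠ w' → Disjoint (B w) (B w'))
    (hadj : ∀ w w', H.Adj w w' → ∃ a ∈ B w, ∃ b ∈ B w', G.Adj a b)
    (hH : ∀ u v, u ∈ {w | x ∉ B w} → v ∈ {w | x ∉ B w} → Reach H {w | x ∉ B w} u v)
    {w1 : W} (hw1 : x ∉ B w1) (hw1S : B w1 ⊆ S1) : MinorIn H G S1 := by
  have hall : ∀ w, x ∉ B w → B w ⊆ S1 := by
    intro w hw
    have hr := hH w1 w hw1 hw
    unfold Reach at hr
    induction hr with
    | refl => exact hw1S
    | @tail p q _ hpq ih =>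
      have hp := ih hpq.2.1
      obtain ⟨a, ha, b, hb, hab⟩ := hadj p q hpq.1
      have hb' : b ∈ S1 ∪ S2 := by rw [h.union]; exact hBS q hb
      have hb1 : b ∈ S1 := by
        rcases hb' with hb' | hb'
        · exact hb'
        · exfalso
          refine h.noedge a (hp ha) b hb' ?_ ?_ hab
          · rintro rfl; exact hpq.2.1 ha
          · rintro rfl; exact hpq.2.2 hb
      exact h.side (hconn q) (hBS q) hpq.2.2 hb hb1
  refine ⟨fun w => B w ∩ S1, fun w => Set.inter_subset_right, ?_, ?_, ?_⟩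
  · intro w
    by_cases hx : x ∈ B w
    · have key : ∀ u, Reach G (B w) u x → u ∈ S1 → Reach G (B w ∩ S1) u x := by
        intro u hu
        unfold Reach at hu
        induction hu using Relation.ReflTransGen.head_induction_on with
        | refl => intro _; exact Relation.ReflTransGen.refl
        | @head u c huc _ ih =>
          intro hu1
          by_cases hux : u = x
          · subst hux; exact Relation.ReflTransGen.refl
          · have hc : c ∈ S1 ∪ S2 := by rw [h.union]; exact hBS w huc.2.2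
            have hc1 : c ∈ S1 := by
              rcases hc with hc | hc
              · exact hc
              · by_cases hcx : c = x
                · subst hcx; exact h.mem1
                · exact absurd huc.1 (h.noedge u hu1 c hc hux hcx)
            exact Relation.ReflTransGen.head ⟨huc.1, ⟨huc.2.1, hu1⟩, ⟨huc.2.2, hc1⟩⟩ (ih hc1)
      refine ⟨⟨x, hx, h.mem1⟩, ?_⟩
      rintro u ⟨hu, hu1⟩ v ⟨hv, hv1⟩
      exact (key u ((hconn w).2 u hu x hx) hu1).trans (key v ((hconn w).2 v hv x hx) hv1).symm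
    · have : B w ∩ S1 = B w := Set.inter_eq_left.2 (hall w hx)
      show Conn G (B w ∩ S1)
      rw [this]; exact hconn w
  · intro w w' hw
    exact (hdisj w w' hw).mono Set.inter_subset_left Set.inter_subset_left
  · intro w w' hw
    obtain ⟨a, ha, b, hb, hab⟩ := hadj w w' hw
    have hne : w ≠ w' := hw.ne
    have key : ∀ {w w' : W} {a b : V}, w ≠ w' → a ∈ B w → b ∈ B w' → G.Adj a b →
        x ∉ B w' → a ∈ S1 := by
      intro w w' a b hne ha hb hab hx'
      by_cases hx : x ∈ B w
      · by_cases hax : a = x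
        · subst hax; exact h.mem1
        · have ha' : a ∈ S1 ∪ S2 := by rw [h.union]; exact hBS w ha
          rcases ha' with ha' | ha'
          · exact ha'
          · exfalso
            refine h.noedge b (hall w' hx' hb) a ha' ?_ hax hab.symm
            rintro rfl; exact hx' hb
      · exact hall w hx ha
    have hcases : x ∉ B w ∨ x ∉ B w' := by
      by_contra hcon
      push Not at hcon
      exact Set.disjoint_left.1 (hdisj w w' hne) hcon.1 hcon.2
    rcases hcases with hx | hx
    · have hb1 := key hne.symm hb ha hab.symm hx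
      exact ⟨a, ⟨ha, hall w hx ha⟩, b, ⟨hb, hb1⟩, hab⟩
    · have ha1 := key hne ha hb hab hx
      exact ⟨a, ⟨ha, ha1⟩, b, ⟨hb, hall w' hx hb⟩, hab⟩

/-- A 2-connected minor lies on one side of a separation at a vertex. -/
theorem minorIn_of_sep {G : SimpleGraph V} {S S1 S2 : Set V} {x : V}
    (h : Sep G S S1 S2 x) {m : ℕ} {H : SimpleGraph (Fin m)} (hH : TwoConnected H)
    (hmin : MinorIn H G S) : MinorIn H G S1 ∨ MinorIn H G S2 := by
  obtain ⟨hm, hconnH, hcut⟩ := hH
  obtain ⟨B, hBS, hconn, hdisj, hadj⟩ := hmin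
  have hreach : ∀ u v, u ∈ {w | x ∉ B w} → v ∈ {w | x ∉ B w} → Reach H {w | x ∉ B w} u v := by
    by_cases hex : ∃ w0, x ∈ B w0
    · obtain ⟨w0, hw0⟩ := hex
      have : {w | x ∉ B w} = ({w0}ᶜ : Set (Fin m)) := by
        ext w
        simp only [Set.mem_ofPred_eq, Set.mem_compl_iff, Set.mem_singleton_iff]
        constructor
        · rintro hw rfl; exact hw hw0
        · intro hw hxw
          exact Set.disjoint_left.1 (hdisj w w0 hw) hxw hw0
      rw [this]
      have := (conn_iff _ _).1 (hcut w0)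
      exact fun u v hu hv => this.2 u hu v hv
    · push Not at hex
      have : {w | x ∉ B w} = (Set.univ : Set (Fin m)) := by
        ext w; simp [hex w]
      rw [this]
      have h2 : (H.induce (Set.univ : Set (Fin m))).Connected := by
        exact (induceUnivIso H).connected_iff.2 hconnH
      have := (conn_iff _ _).1 h2
      exact fun u v hu hv => this.2 u hu v hv
  -- a branch set avoiding x
  obtain ⟨w1, hw1⟩ : ∃ w1, x ∉ B w1 := by
    by_contra hcon
    push Not at hcon
    have h01 : (⟨0, by omega⟩ : Fin m) ≠ ⟨1, by omega⟩ := by simp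
    exact Set.disjoint_left.1 (hdisj _ _ h01) (hcon _) (hcon _)
  obtain ⟨u, hu⟩ := (hconn w1).1
  have hu' : u ∈ S1 ∪ S2 := by rw [h.union]; exact hBS w1 hu
  rcases hu' with hu' | hu'
  · left
    exact minorIn_of_sep_aux h hBS hconn hdisj hadj hreach hw1
      (h.side (hconn w1) (hBS w1) hw1 hu hu')
  · right
    exact minorIn_of_sep_aux h.symm hBS hconn hdisj hadj hreach hw1
      (h.symm.side (hconn w1) (hBS w1) hw1 hu hu')

/-- Contracting connected sets in a forest gives a forest. -/
theorem acyclic_of_minor {G : SimpleGraph V} {T : Set V} (hG : (G.induce T).IsAcyclic)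
    {H : SimpleGraph W} {P : Set W} {B : W → Set V} (hBT : ∀ w ∈ P, B w ⊆ T)
    (hconn : ∀ w ∈ P, Conn G (B w))
    (hdisj : ∀ w w', w ≠ w' → Disjoint (B w) (B w'))
    (hadj : ∀ w ∈ P, ∀ w' ∈ P, H.Adj w w' → ∃ a ∈ B w, ∃ b ∈ B w', G.Adj a b) :
    (H.induce P).IsAcyclic := by
  rw [isAcyclic_iff_forall_adj_isBridge] at hG ⊢
  rintro ⟨v, hv⟩ ⟨w, hw⟩ hvw
  rw [isBridge_iff]
  intro hr
  have hvw' : H.Adj v w := hvw
  obtain ⟨a, ha, b, hb, hab⟩ := hadj v hv w hw hvw'
  have haT := hBT v hv ha
  have hbT := hBT w hw hb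
  have hbr := @hG ⟨a, haT⟩ ⟨b, hbT⟩ hab
  rw [isBridge_iff] at hbr
  apply hbr
  set G' := (G.induce T).deleteEdges {s((⟨a, haT⟩ : T), (⟨b, hbT⟩ : T))} with hG'
  have hvwne : v ≠ w := hvw'.ne
  -- inside a branch set
  have hin : ∀ z ∈ P, ∀ p q, p ∈ B z → ∀ hpT : p ∈ T, Reach G (B z) p q →
      ∀ hqT : q ∈ T, G'.Reachable ⟨p, hpT⟩ ⟨q, hqT⟩ := by
    intro z hz p q hp hpT hpq
    unfold Reach at hpq
    induction hpq with
    | refl => intro _; exact Reachable.refl _
    | @tail c d _ hcd ih =>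
      intro hdT
      have hcT := hBT z hz hcd.2.1
      refine (ih hcT).trans (Adj.reachable ?_)
      rw [hG', deleteEdges_adj]
      refine ⟨hcd.1, ?_⟩
      simp only [Set.mem_singleton_iff, Sym2.eq_iff, Subtype.mk.injEq]
      rintro (⟨rfl, rfl⟩ | ⟨rfl, rfl⟩)
      · have hzv : z = v := by
          by_contra hne
          exact Set.disjoint_left.1 (hdisj z v hne) hcd.2.1 ha
        have hzw : z = w := by
          by_contra hne
          exact Set.disjoint_left.1 (hdisj z w hne) hcd.2.2 hb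
        exact hvwne (hzv.symm.trans hzw)
      · have hzv : z = v := by
          by_contra hne
          exact Set.disjoint_left.1 (hdisj z v hne) hcd.2.2 ha
        have hzw : z = w := by
          by_contra hne
          exact Set.disjoint_left.1 (hdisj z w hne) hcd.2.1 hb
        exact hvwne (hzv.symm.trans hzw)
  have hin' : ∀ z ∈ P, ∀ p ∈ B z, ∀ q ∈ B z, ∀ (hpT : p ∈ T) (hqT : q ∈ T),
      G'.Reachable ⟨p, hpT⟩ ⟨q, hqT⟩ := by
    intro z hz p hp q hq hpT hqT
    exact hin z hz p q hp hpT ((hconn z hz).2 p hp q hq) hqT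
  rw [reachable_iff_reflTransGen] at hr
  have key : ∀ z : P, Relation.ReflTransGen
      ((H.induce P).deleteEdges {s((⟨v, hv⟩ : P), (⟨w, hw⟩ : P))}).Adj ⟨v, hv⟩ z →
      ∀ q ∈ B z, ∀ hqT : q ∈ T, G'.Reachable ⟨a, haT⟩ ⟨q, hqT⟩ := by
    intro z hz
    induction hz with
    | refl => intro q hq hqT; exact hin' v hv a ha q hq haT hqT
    | @tail y z _ hyz ih =>
      intro q hq hqT
      rw [deleteEdges_adj] at hyz
      obtain ⟨hyz1, hyz2⟩ := hyz
      obtain ⟨c, hc, d, hd, hcd⟩ := hadj y y.2 z z.2 hyz1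
      have hcT := hBT y y.2 hc
      have hdT := hBT z z.2 hd
      refine (ih c hc hcT).trans (Reachable.trans (Adj.reachable ?_)
        (hin' z z.2 d hd q hq hdT hqT))
      rw [hG', deleteEdges_adj]
      refine ⟨hcd, ?_⟩
      simp only [Set.mem_singleton_iff, Sym2.eq_iff, Subtype.mk.injEq] at hyz2 ⊢
      rintro (⟨rfl, rfl⟩ | ⟨rfl, rfl⟩)
      · apply hyz2
        left
        constructor
        · apply Subtype.ext
          by_contra hne
          exact Set.disjoint_left.1 (hdisj _ _ hne) hc ha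
        · apply Subtype.ext
          by_contra hne
          exact Set.disjoint_left.1 (hdisj _ _ hne) hd hb
      · apply hyz2
        right
        constructor
        · apply Subtype.ext
          by_contra hne
          exact Set.disjoint_left.1 (hdisj _ _ hne) hc hb
        · apply Subtype.ext
          by_contra hne
          exact Set.disjoint_left.1 (hdisj _ _ hne) hd ha
  exact key ⟨w, hw⟩ hr b hb hbT

theorem conn_singleton (G : SimpleGraph V) (v : V) : Conn G {v} := by
  refine ⟨⟨v, rfl⟩, ?_⟩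
  intro a ha b hb
  obtain rfl : a = v := ha
  obtain rfl : b = a := hb
  exact Relation.ReflTransGen.refl

theorem acyclic_mono {G G' : SimpleGraph V} {T T' : Set V} (hT : T' ⊆ T)
    (hG : ∀ a ∈ T', ∀ b ∈ T', G'.Adj a b → G.Adj a b) (h : (G.induce T).IsAcyclic) :
    (G'.induce T').IsAcyclic := by
  refine acyclic_of_minor h (B := fun v => {v}) ?_ (fun w _ => conn_singleton G w) ?_ ?_
  · intro w hw y hy
    obtain rfl : y = w := hy
    exact hT hw
  · intro w w' hw
    rw [Set.disjoint_singleton]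
    exact hw
  · intro w hw w' hw' hadj
    exact ⟨w, rfl, w', rfl, hG w hw w' hw' hadj⟩

/-- adding a vertex with at most one neighbour to a forest -/
theorem acyclic_pendant {G : SimpleGraph V} {T : Set V} {y x0 : V} (hy : y ∉ T)
    (hyT : ∀ z ∈ T, G.Adj y z → z = x0) (h : (G.induce T).IsAcyclic) :
    (G.induce (insert y T)).IsAcyclic := by
  rw [isAcyclic_iff_forall_adj_isBridge] at h ⊢
  rintro ⟨p, hp⟩ ⟨q, hq⟩ hpq
  rw [isBridge_iff]
  intro hr
  have hpq' : G.Adj p q := hpq
  have hyloop : ∀ w, w ∈ insert y T → G.Adj y w → w ∈ T := by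
    intro w hw hyw
    rcases hw with rfl | hw
    · exact absurd rfl hyw.ne
    · exact hw
  rw [reachable_iff_reflTransGen] at hr
  set G' := (G.induce (insert y T)).deleteEdges {s((⟨p, hp⟩ : ↑(insert y T)), ⟨q, hq⟩)} with hG'
  by_cases hpy : p = y
  · -- the edge y q is a bridge
    subst hpy
    have hqT := hyloop q hq hpq'
    have hq0 := hyT q hqT hpq'
    have key : ∀ w : ↑(insert p T), Relation.ReflTransGen G'.Adj ⟨p, hp⟩ w → w = ⟨p, hp⟩ := by
      intro w hw
      induction hw with
      | refl => rfl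
      | @tail u v _ huv ih =>
        exfalso
        subst ih
        rw [hG', deleteEdges_adj] at huv
        obtain ⟨h1, h2⟩ := huv
        have h1' : G.Adj p v := h1
        have hvT := hyloop v v.2 h1'
        have hv0 := hyT v hvT h1'
        apply h2
        simp only [Set.mem_singleton_iff, Sym2.eq_iff]
        left
        exact ⟨trivial, Subtype.ext (hv0.trans hq0.symm)⟩
    have := key _ hr
    have h3 : q = p := congrArg Subtype.val this
    exact hpq'.ne h3.symm
  by_cases hqy : q = y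
  · subst hqy
    have hpT := hyloop p hp hpq'.symm
    have hp0 := hyT p hpT hpq'.symm
    -- reverse
    have hr' : Relation.ReflTransGen G'.Adj ⟨q, hq⟩ ⟨p, hp⟩ := by
      rw [← reachable_iff_reflTransGen] at hr ⊢
      exact hr.symm
    have key : ∀ w : ↑(insert q T), Relation.ReflTransGen G'.Adj ⟨q, hq⟩ w → w = ⟨q, hq⟩ := by
      intro w hw
      induction hw with
      | refl => rfl
      | @tail u v _ huv ih =>
        exfalso
        subst ih
        rw [hG', deleteEdges_adj] at huv
        obtain ⟨h1, h2⟩ := huv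
        have h1' : G.Adj q v := h1
        have hvT := hyloop v v.2 h1'
        have hv0 := hyT v hvT h1'
        apply h2
        simp only [Set.mem_singleton_iff, Sym2.eq_iff]
        right
        exact ⟨trivial, Subtype.ext (hv0.trans hp0.symm)⟩
    have := key _ hr'
    have h3 : p = q := congrArg Subtype.val this
    exact hpq'.ne h3
  -- both ends in T
  have hpT : p ∈ T := by
    rcases hp with hp | hp
    · exact absurd hp hpy
    · exact hp
  have hqT : q ∈ T := by
    rcases hq with hq | hq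
    · exact absurd hq hqy
    · exact hq
  have hbr := @h ⟨p, hpT⟩ ⟨q, hqT⟩ hpq'
  rw [isBridge_iff] at hbr
  apply hbr
  set G'' := (G.induce T).deleteEdges {s((⟨p, hpT⟩ : T), ⟨q, hqT⟩)} with hG''
  have key : ∀ w : ↑(insert y T), Relation.ReflTransGen G'.Adj ⟨p, hp⟩ w →
      (∀ hw : (w : V) ∈ T, G''.Reachable ⟨p, hpT⟩ ⟨w, hw⟩) ∧
      ((w : V) = y → ∃ hx : x0 ∈ T, G''.Reachable ⟨p, hpT⟩ ⟨x0, hx⟩) := by
    intro w hw
    induction hw with
    | refl => exact ⟨fun _ => Reachable.refl _, fun h => absurd h hpy⟩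
    | @tail u v _ huv ih =>
      rw [hG', deleteEdges_adj] at huv
      obtain ⟨h1, h2⟩ := huv
      have h1' : G.Adj u v := h1
      constructor
      · intro hvT
        by_cases huy : (u : V) = y
        · obtain ⟨hx, hxr⟩ := ih.2 huy
          have h1'' := h1'
          rw [huy] at h1''
          have : (v : V) = x0 := hyT v hvT h1''
          have e : (⟨v, hvT⟩ : T) = ⟨x0, hx⟩ := Subtype.ext this
          rw [e]; exact hxr
        · have huT : (u : V) ∈ T := by
            rcases u.2 with hu | hu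
            · exact absurd hu huy
            · exact hu
          refine (ih.1 huT).trans (Adj.reachable ?_)
          rw [hG'', deleteEdges_adj]
          refine ⟨h1', ?_⟩
          simp only [Set.mem_singleton_iff, Sym2.eq_iff, Subtype.ext_iff] at h2 ⊢
          exact h2
      · intro hvy
        have h1'' := h1'.symm
        rw [hvy] at h1''
        have huT : (u : V) ∈ T := hyloop u u.2 h1''
        have : (u : V) = x0 := hyT u huT h1''
        have hx : x0 ∈ T := this ▸ huT
        refine ⟨hx, ?_⟩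
        have e : (⟨u, huT⟩ : T) = ⟨x0, hx⟩ := Subtype.ext this
        rw [← e]; exact ih.1 huT
  exact (key _ hr).1 hqT

end Pool.Agent.Lib.MP_4dddeb_co
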