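import Pool.Agent.Lib.MP_4dddeb_co.TwoConn

/-!
The number of edges of an edge-maximal graph without a minor in `bigFeedback` is divisible by 3.
-/

namespace Pool.Agent.Lib.MP_4dddeb_co

open SimpleGraph

variable {V : Type*}

/-- edge-maximal inside `S` -/
def Max (G : SimpleGraph V) (S : Set V) : Prop :=
  Free G S ∧ ∀ a ∈ S, ∀ b ∈ S, a ≠ b → ¬ G.Adj a b → ¬ Free (G ⊔ edge a b) S

/-- edges inside `S` -/
def edgesIn (G : SimpleGraph V) (S : Set V) : Set (Sym2 V) :=
  {e | e ∈ G.edgeSet ∧ ∀ v ∈ e, v ∈ S}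

theorem mk_mem_edgesIn {G : SimpleGraph V} {S : Set V} {a b : V} :
    s(a, b) ∈ edgesIn G S ↔ G.Adj a b ∧ a ∈ S ∧ b ∈ S := by
  simp [edgesIn]

/-- a family of pairwise disjoint cliques with four vertices -/
def CliqueFamily (G : SimpleGraph V) (S : Set V) (F : Finset (Finset V)) : Prop :=
  (∀ K ∈ F, (K : Set V) ⊆ S ∧ K.card = 4 ∧ ∀ p ∈ K, ∀ q ∈ K, p ≠ q → G.Adj p q) ∧
    ∀ K ∈ F, ∀ K' ∈ F, K ≠ K' → Disjoint K K'

theorem edgesIn_sep {G : SimpleGraph V} {S S1 S2 : Set V} {x : V} (h : Sep G S S1 S2 x) :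
    edgesIn G S = edgesIn G S1 ∪ edgesIn G S2 ∧ Disjoint (edgesIn G S1) (edgesIn G S2) := by
  constructor
  · ext e
    induction e using Sym2.ind with
    | _ a b =>
      rw [Set.mem_union, mk_mem_edgesIn, mk_mem_edgesIn, mk_mem_edgesIn, ← h.union]
      constructor
      · rintro ⟨hab, ha, hb⟩
        rcases ha with ha | ha <;> rcases hb with hb | hb
        · exact Or.inl ⟨hab, ha, hb⟩
        · by_cases hax : a = x
          · exact Or.inr ⟨hab, hax ▸ h.mem2, hb⟩
          · by_cases hbx : b = x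
            · exact Or.inl ⟨hab, ha, hbx ▸ h.mem1⟩
            · exact absurd hab (h.noedge a ha b hb hax hbx)
        · by_cases hax : a = x
          · exact Or.inl ⟨hab, hax ▸ h.mem1, hb⟩
          · by_cases hbx : b = x
            · exact Or.inr ⟨hab, ha, hbx ▸ h.mem2⟩
            · exact absurd hab.symm (h.noedge b hb a ha hbx hax)
        · exact Or.inr ⟨hab, ha, hb⟩
      · rintro (⟨hab, ha, hb⟩ | ⟨hab, ha, hb⟩)
        · exact ⟨hab, Or.inl ha, Or.inl hb⟩
        · exact ⟨hab, Or.inr ha, Or.inr hb⟩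
  · rw [Set.disjoint_left]
    intro e
    induction e using Sym2.ind with
    | _ a b =>
      rw [mk_mem_edgesIn, mk_mem_edgesIn]
      rintro ⟨hab, ha, hb⟩ ⟨-, ha', hb'⟩
      exact hab.ne ((h.eq_of_mem ha ha').trans (h.eq_of_mem hb hb').symm)

theorem Max.adj_all {G : SimpleGraph V} {S : Set V} (hM : Max G S) {a b : V} (ha : a ∈ S)
    (hac : (G.induce (S \ {a, b})).IsAcyclic) : ∀ v ∈ S, v ≠ a → G.Adj a v := by
  intro v hv hva
  by_contra hcon
  refine hM.2 a ha v hv hva.symm hcon ?_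
  apply Free.of_acyclic (a := a) (b := b)
  refine acyclic_mono (Set.Subset.refl _) ?_ hac
  rintro u ⟨hu, hu'⟩ w ⟨hw, hw'⟩ huw
  rw [sup_edge_adj''] at huw
  simp only [Set.mem_insert_iff, Set.mem_singleton_iff, not_or] at hu' hw'
  rcases huw with h | ⟨-, ⟨h, -⟩ | ⟨-, h⟩⟩
  · exact h
  · exact absurd h hu'.1
  · exact absurd h hw'.1

theorem Max.isTree {G : SimpleGraph V} {S : Set V} (hM : Max G S) {a b : V}
    (hne : (S \ {a, b}).Nonempty)
    (hac : (G.induce (S \ {a, b})).IsAcyclic) : (G.induce (S \ {a, b})).IsTree := by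
  rw [isTree_iff_maximal_isAcyclic]
  refine ⟨hne.to_subtype, hac, ?_⟩
  intro F hF hle
  rintro ⟨u, hu⟩ ⟨v, hv⟩ huv
  by_contra hcon
  have hcon' : ¬ G.Adj u v := hcon
  have huv' : u ≠ v := fun h => huv.ne (Subtype.ext h)
  refine hM.2 u hu.1 v hv.1 huv' hcon' ?_
  apply Free.of_acyclic (a := a) (b := b)
  refine hF.anti ?_
  rintro ⟨p, hp⟩ ⟨q, hq⟩ hpq
  have hpq' : (G ⊔ edge u v).Adj p q := hpq
  rw [sup_edge_adj''] at hpq'
  rcases hpq' with h | ⟨-, ⟨rfl, rfl⟩ | ⟨rfl, rfl⟩⟩
  · exact hle h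
  · exact huv
  · exact huv.symm

theorem edgesIn_eq_image (G : SimpleGraph V) (T : Set V) :
    edgesIn G T = Sym2.map Subtype.val '' (G.induce T).edgeSet := by
  ext e
  induction e using Sym2.ind with
  | _ a b =>
    rw [mk_mem_edgesIn]
    constructor
    · rintro ⟨hab, ha, hb⟩
      exact ⟨s(⟨a, ha⟩, ⟨b, hb⟩), hab, rfl⟩
    · rintro ⟨e, he, hee⟩
      induction e using Sym2.ind with
      | _ p q =>
        have hpq : G.Adj p q := he
        rw [Sym2.map_mk, Sym2.eq_iff] at hee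
        rcases hee with ⟨h1, h2⟩ | ⟨h1, h2⟩
        · have h1' : (p : V) = a := h1
          have h2' : (q : V) = b := h2
          rw [← h1', ← h2']; exact ⟨hpq, p.2, q.2⟩
        · have h1' : (p : V) = b := h1
          have h2' : (q : V) = a := h2
          rw [← h1', ← h2']; exact ⟨hpq.symm, q.2, p.2⟩

theorem ncard_edgesIn_tree [Finite V] {G : SimpleGraph V} {T : Set V}
    (h : (G.induce T).IsTree) : (edgesIn G T).ncard + 1 = T.ncard := by
  classical
  have : Fintype V := Fintype.ofFinite V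
  rw [edgesIn_eq_image, Set.ncard_image_of_injective _ (Sym2.map.injective Subtype.val_injective)]
  have h1 := h.card_edgeFinset
  have h2 : (G.induce T).edgeSet.ncard = (G.induce T).edgeFinset.card := by
    rw [Set.ncard_eq_toFinset_card', edgeFinset]
  rw [h2, h1, ← Nat.card_eq_fintype_card]
  rfl

theorem ncard_edgesIn_apex [Finite V] {G : SimpleGraph V} {S : Set V} {a b : V} (ha : a ∈ S)
    (hb : b ∈ S) (hab : a ≠ b) (hadja : ∀ v ∈ S, v ≠ a → G.Adj a v)
    (hadjb : ∀ v ∈ S, v ≠ b → G.Adj b v) (hT : (G.induce (S \ {a, b})).IsTree) :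
    (edgesIn G S).ncard = 3 * (S \ {a, b}).ncard := by
  set T := S \ {a, b} with hTdef
  have haT : a ∉ T := fun h => h.2 (by simp)
  have hbT : b ∉ T := fun h => h.2 (by simp)
  have hTS : ∀ v ∈ T, v ∈ S ∧ v ≠ a ∧ v ≠ b := by
    rintro v ⟨hv, hv'⟩
    simp only [Set.mem_insert_iff, Set.mem_singleton_iff, not_or] at hv'
    exact ⟨hv, hv'.1, hv'.2⟩
  have hset : edgesIn G S = {s(a, b)} ∪ ((fun v => s(a, v)) '' T ∪
      ((fun v => s(b, v)) '' T ∪ edgesIn G T)) := by
    ext e
    induction e using Sym2.ind with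
    | _ p q =>
      constructor
      · intro h
        rw [mk_mem_edgesIn] at h
        obtain ⟨hpq, hp, hq⟩ := h
        have hpqne := hpq.ne
        by_cases hpa : p = a
        · by_cases hqb : q = b
          · left; rw [hpa, hqb]; rfl
          · right; left
            exact ⟨q, ⟨hq, by simp [hqb, hpa ▸ hpqne.symm]⟩, by rw [hpa]⟩
        by_cases hqa : q = a
        · by_cases hpb : p = b
          · left; rw [hqa, hpb]; exact Sym2.eq_swap
          · right; left
            exact ⟨p, ⟨hp, by simp [hpa, hpb]⟩, by rw [hqa]; exact Sym2.eq_swap⟩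
        by_cases hpb : p = b
        · right; right; left
          exact ⟨q, ⟨hq, by simp [hqa, hpb ▸ hpqne.symm]⟩, by rw [hpb]⟩
        by_cases hqb : q = b
        · right; right; left
          exact ⟨p, ⟨hp, by simp [hpa, hpb]⟩, by rw [hqb]; exact Sym2.eq_swap⟩
        · right; right; right
          rw [mk_mem_edgesIn]
          exact ⟨hpq, ⟨hp, by simp [hpa, hpb]⟩, ⟨hq, by simp [hqa, hqb]⟩⟩
      · rintro (h | ⟨v, hv, h⟩ | ⟨v, hv, h⟩ | h)
        · rw [show s(p, q) = s(a, b) from h, mk_mem_edgesIn]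
          exact ⟨hadja b hb hab.symm, ha, hb⟩
        · rw [← h, mk_mem_edgesIn]
          obtain ⟨h1, h2, h3⟩ := hTS v hv
          exact ⟨hadja v h1 h2, ha, h1⟩
        · rw [← h, mk_mem_edgesIn]
          obtain ⟨h1, h2, h3⟩ := hTS v hv
          exact ⟨hadjb v h1 h3, hb, h1⟩
        · rw [mk_mem_edgesIn] at h ⊢
          exact ⟨h.1, (hTS p h.2.1).1, (hTS q h.2.2).1⟩
  have hinj : ∀ c : V, Function.Injective (fun v => s(c, v)) := by
    intro c v w hvw
    simp only [Sym2.eq_iff] at hvw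
    rcases hvw with ⟨-, h⟩ | ⟨h1, h2⟩
    · exact h
    · exact h2.trans h1
  have hcardT := ncard_edgesIn_tree hT
  have hd3 : Disjoint ((fun v => s(b, v)) '' T) (edgesIn G T) := by
    rw [Set.disjoint_left]
    rintro _ ⟨v, hv, rfl⟩ h
    rw [mk_mem_edgesIn] at h
    exact hbT h.2.1
  have hd2 : Disjoint ((fun v => s(a, v)) '' T) ((fun v => s(b, v)) '' T ∪ edgesIn G T) := by
    rw [Set.disjoint_left]
    rintro _ ⟨v, hv, rfl⟩ (⟨w, hw, h⟩ | h)
    · simp only [Sym2.eq_iff] at h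
      rcases h with ⟨h1, -⟩ | ⟨-, h2⟩
      · exact hab h1.symm
      · exact haT (h2 ▸ hw)
    · rw [mk_mem_edgesIn] at h
      exact haT h.2.1
  have hd1 : Disjoint ({s(a, b)} : Set (Sym2 V)) ((fun v => s(a, v)) '' T ∪
      ((fun v => s(b, v)) '' T ∪ edgesIn G T)) := by
    rw [Set.disjoint_left]
    rintro _ rfl (⟨w, hw, h⟩ | ⟨w, hw, h⟩ | h)
    · simp only [Sym2.eq_iff] at h
      rcases h with ⟨-, h2⟩ | ⟨h1, -⟩
      · exact hbT (h2 ▸ hw)
      · exact hab h1
    · simp only [Sym2.eq_iff] at h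
      rcases h with ⟨h1, -⟩ | ⟨-, h2⟩
      · exact hab h1.symm
      · exact haT (h2 ▸ hw)
    · rw [mk_mem_edgesIn] at h
      exact haT h.2.1
  rw [hset, Set.ncard_union_eq hd1, Set.ncard_union_eq hd2, Set.ncard_union_eq hd3,
    Set.ncard_singleton, Set.ncard_image_of_injective _ (hinj a),
    Set.ncard_image_of_injective _ (hinj b)]
  omega

/-- A clique with four vertices inside `S` contains both `a` and `b` if deleting `a` and `b`
leaves a forest. -/
theorem mem_of_clique {G : SimpleGraph V} {S : Set V} {a b : V}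
    (hac : (G.induce (S \ {a, b})).IsAcyclic) {K : Finset V} (hKS : (K : Set V) ⊆ S)
    (hK4 : K.card = 4) (hK : ∀ p ∈ K, ∀ q ∈ K, p ≠ q → G.Adj p q) : a ∈ K := by
  classical
  by_contra haK
  have h3 : 3 ≤ (K.erase b).card := by
    by_cases hb : b ∈ K
    · rw [Finset.card_erase_of_mem hb]; omega
    · rw [Finset.erase_eq_of_notMem hb]; omega
  obtain ⟨t, ht, htc⟩ := Finset.exists_subset_card_eq h3
  obtain ⟨p, q, r, hpq, hpr, hqr, rfl⟩ := Finset.card_eq_three.1 htc
  have hmem : ∀ z ∈ ({p, q, r} : Finset V), z ∈ K ∧ z ∈ S \ {a, b} := by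
    intro z hz
    have h1 := ht hz
    rw [Finset.mem_erase] at h1
    refine ⟨h1.2, hKS h1.2, ?_⟩
    simp only [Set.mem_insert_iff, Set.mem_singleton_iff, not_or]
    exact ⟨fun h => haK (h ▸ h1.2), h1.1⟩
  have hp := hmem p (by simp)
  have hq := hmem q (by simp)
  have hr := hmem r (by simp)
  have hfree := hac.cliqueFree (n := 3) le_rfl
  apply hfree {⟨p, hp.2⟩, ⟨q, hq.2⟩, ⟨r, hr.2⟩}
  rw [is3Clique_triple_iff]
  exact ⟨hK p hp.1 q hq.1 hpq, hK p hp.1 r hr.1 hpr, hK q hq.1 r hr.1 hqr⟩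

/-- In a separation, the sides of an edge-maximal graph have at least three vertices. -/
theorem Max.three_le [Finite V] {G : SimpleGraph V} {S S1 S2 : Set V} {x : V} (hM : Max G S)
    (hsep : Sep G S S1 S2 x) (hS : 3 ≤ S.ncard) (h2 : ∃ q ∈ S2, q ≠ x) :
    3 ≤ S2.ncard := by
  by_contra hcon
  obtain ⟨y, hy, hyx⟩ := h2
  have hS2 : S2 = {x, y} := by
    symm
    apply Set.eq_of_subset_of_ncard_le
    · rintro w (rfl | rfl)
      · exact hsep.mem2
      · exact hy
    · rw [Set.ncard_pair hyx.symm]; omega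
    · exact Set.toFinite _
  have hyS1 : y ∉ S1 := fun h => hyx (hsep.eq_of_mem h hy)
  have hSeq : insert y S1 = S := by
    rw [← hsep.union, hS2]
    ext w
    simp only [Set.mem_insert_iff, Set.mem_union, Set.mem_singleton_iff]
    constructor
    · rintro (h | h)
      · exact Or.inr (Or.inr h)
      · exact Or.inl h
    · rintro (h | h | h)
      · exact Or.inr h
      · exact Or.inr (h ▸ hsep.mem1)
      · exact Or.inl h
  have hS1S : S1 ⊆ S := by rw [← hsep.union]; exact Set.subset_union_left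
  have hyS : y ∈ S := hSeq ▸ Set.mem_insert y S1
  have hcard1 : S1.ncard + 1 = S.ncard := by
    rw [← hSeq, Set.ncard_insert_of_notMem hyS1]
  have hno : ∀ z ∈ S1, z ≠ x → ¬ G.Adj y z := fun z hz hzx h =>
    hsep.noedge z hz y hy hzx hyx h.symm
  obtain ⟨z, hz, hzx, hfz⟩ := exists_attach S1.ncard S1 (Set.toFinite _) rfl (by omega) G x y
    hsep.mem1 hyS1 hno (hM.1.mono hS1S (fun _ _ _ _ h => h))
  rw [hSeq] at hfz
  exact hM.2 y hyS z (hS1S hz) (fun h => hyS1 (h ▸ hz)) (hno z hz hzx) hfz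

theorem Max.side [Finite V] {G : SimpleGraph V} {S S1 S2 : Set V} {x : V} (hM : Max G S)
    (hsep : Sep G S S1 S2 x) : Max G S1 := by
  have hS1 : S1 ⊆ S := by rw [← hsep.union]; exact Set.subset_union_left
  have hS2 : S2 ⊆ S := by rw [← hsep.union]; exact Set.subset_union_right
  refine ⟨hM.1.mono hS1 (fun _ _ _ _ h => h), ?_⟩
  intro a ha b hb hab hnadj hfree
  refine hM.2 a (hS1 ha) b (hS1 hb) hab hnadj ?_
  have hsep' : Sep (G ⊔ edge a b) S S1 S2 x := by
    refine ⟨hsep.union, hsep.inter, ?_⟩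
    intro u hu v hv hux hvx huv
    rw [sup_edge_adj''] at huv
    rcases huv with h | ⟨-, ⟨-, h⟩ | ⟨-, h⟩⟩
    · exact hsep.noedge u hu v hv hux hvx h
    · exact hvx (hsep.eq_of_mem (h ▸ hb) hv)
    · exact hvx (hsep.eq_of_mem (h ▸ ha) hv)
  refine Free.of_sep hsep' hfree (hM.1.mono hS2 ?_)
  intro u hu v hv huv
  rw [sup_edge_adj''] at huv
  rcases huv with h | ⟨-, ⟨h1, h2⟩ | ⟨h1, h2⟩⟩
  · exact h
  · exfalso
    have e1 := hsep.eq_of_mem ha (h1 ▸ hu)
    have e2 := hsep.eq_of_mem hb (h2 ▸ hv)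
    exact hab (e1.trans e2.symm)
  · exfalso
    have e1 := hsep.eq_of_mem hb (h1 ▸ hu)
    have e2 := hsep.eq_of_mem ha (h2 ▸ hv)
    exact hab (e2.trans e1.symm)

/-- The number of edges of an edge-maximal graph is `3 (n - 1) - 3 b`, where `b` is at least the
number of pairwise disjoint cliques with four vertices. -/
theorem structure_thm [Finite V] (n : ℕ) : ∀ S : Set V, S.ncard = n → 3 ≤ n →
    ∀ G : SimpleGraph V, Max G S → ∃ b, (edgesIn G S).ncard + 3 * b = 3 * (n - 1) ∧ 1 ≤ b ∧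
      ∀ F : Finset (Finset V), CliqueFamily G S F → F.card ≤ b := by
  classical
  induction n using Nat.strong_induction_on with
  | _ n ih =>
  intro S hcard hn G hM
  rcases exists_sep G S (Set.toFinite _) (by omega) with
    ⟨hconn, hcut⟩ | ⟨S1, S2, x, hsep, ⟨p, hp1, hpx⟩, q, hq2, hqx⟩
  · obtain ⟨a, ha, b, hb, hab, hac⟩ :=
      exists_apex (Set.toFinite _) (by omega) hconn hcut hM.1
    have hcardT : (S \ {a, b}).ncard + 2 = S.ncard := by
      have h1 : ({a, b} : Set V) ⊆ S := by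
        rintro w (rfl | rfl)
        · exact ha
        · exact hb
      have h2 := Set.ncard_sdiff_add_ncard_of_subset h1
      rw [Set.ncard_pair hab] at h2
      exact h2
    have hne : (S \ {a, b}).Nonempty := by
      rw [← Set.ncard_pos]; omega
    have hT := hM.isTree hne hac
    have hadja := hM.adj_all ha hac
    have hac' : (G.induce (S \ {b, a})).IsAcyclic := by rw [Set.pair_comm]; exact hac
    have hadjb := hM.adj_all hb hac'
    have hcount := ncard_edgesIn_apex ha hb hab hadja hadjb hT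
    refine ⟨1, by omega, le_rfl, ?_⟩
    intro F hF
    rw [Finset.card_le_one]
    intro K hK K' hK'
    by_contra hne'
    obtain ⟨h1, h2, h3⟩ := hF.1 K hK
    obtain ⟨h1', h2', h3'⟩ := hF.1 K' hK'
    exact Finset.disjoint_left.1 (hF.2 K hK K' hK' hne') (mem_of_clique hac h1 h2 h3)
      (mem_of_clique hac h1' h2' h3')
  · have hS1 : S1 ⊆ S := by rw [← hsep.union]; exact Set.subset_union_left
    have hS2 : S2 ⊆ S := by rw [← hsep.union]; exact Set.subset_union_right
    have h31 := hM.three_le hsep.symm (by omega) ⟨p, hp1, hpx⟩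
    have h32 := hM.three_le hsep (by omega) ⟨q, hq2, hqx⟩
    have hM1 := hM.side hsep
    have hM2 := hM.side hsep.symm
    have hcards : S1.ncard + S2.ncard = S.ncard + 1 := by
      have h := Set.ncard_union_add_ncard_inter S1 S2
      rw [hsep.union, hsep.inter, Set.ncard_singleton] at h
      exact h.symm
    obtain ⟨b1, hb1, hb1', hF1⟩ := ih S1.ncard (by omega) S1 rfl h31 G hM1
    obtain ⟨b2, hb2, hb2', hF2⟩ := ih S2.ncard (by omega) S2 rfl h32 G hM2
    obtain ⟨hE, hdisj⟩ := edgesIn_sep hsep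
    have hEc : (edgesIn G S).ncard = (edgesIn G S1).ncard + (edgesIn G S2).ncard := by
      rw [hE, Set.ncard_union_eq hdisj]
    refine ⟨b1 + b2, by omega, by omega, ?_⟩
    intro F hF
    have hside : ∀ K ∈ F, (K : Set V) ⊆ S1 ∨ (K : Set V) ⊆ S2 := by
      intro K hK
      obtain ⟨h1, h2, h3⟩ := hF.1 K hK
      by_contra hcon
      push Not at hcon
      obtain ⟨u, hu, hu1⟩ := Set.not_subset.1 hcon.1
      obtain ⟨v, hv, hv2⟩ := Set.not_subset.1 hcon.2
      have hu2 : u ∈ S2 := by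
        have : u ∈ S1 ∪ S2 := by rw [hsep.union]; exact h1 hu
        exact this.resolve_left hu1
      have hv1 : v ∈ S1 := by
        have : v ∈ S1 ∪ S2 := by rw [hsep.union]; exact h1 hv
        exact this.resolve_right hv2
      have huv : v ≠ u := fun h => hu1 (h ▸ hv1)
      refine hsep.noedge v hv1 u hu2 ?_ ?_ (h3 v hv u hu huv)
      · rintro rfl; exact hv2 hsep.mem2
      · rintro rfl; exact hu1 hsep.mem1
    have hsub : F ⊆ F.filter (fun K : Finset V => (K : Set V) ⊆ S1) ∪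
        F.filter (fun K : Finset V => (K : Set V) ⊆ S2) := by
      intro K hK
      rw [Finset.mem_union, Finset.mem_filter, Finset.mem_filter]
      rcases hside K hK with h | h
      · exact Or.inl ⟨hK, h⟩
      · exact Or.inr ⟨hK, h⟩
    have hc1 : (F.filter (fun K : Finset V => (K : Set V) ⊆ S1)).card ≤ b1 := by
      apply hF1
      refine ⟨fun K hK => ?_, fun K hK K' hK' => ?_⟩
      · rw [Finset.mem_filter] at hK
        exact ⟨hK.2, (hF.1 K hK.1).2⟩
      · rw [Finset.mem_filter] at hK hK'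
        exact hF.2 K hK.1 K' hK'.1
    have hc2 : (F.filter (fun K : Finset V => (K : Set V) ⊆ S2)).card ≤ b2 := by
      apply hF2
      refine ⟨fun K hK => ?_, fun K hK K' hK' => ?_⟩
      · rw [Finset.mem_filter] at hK
        exact ⟨hK.2, (hF.1 K hK.1).2⟩
      · rw [Finset.mem_filter] at hK hK'
        exact hF.2 K hK.1 K' hK'.1
    calc F.card ≤ _ := Finset.card_le_card hsub
      _ ≤ _ := Finset.card_union_le _ _
      _ ≤ b1 + b2 := Nat.add_le_add hc1 hc2

end Pool.Agent.Lib.MP_4dddeb_co
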