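import Pool.Agent.Lib.MP_4dddeb_co.Sep

/-!
The set of all 2-connected graphs from which no two vertices can be deleted to leave a forest, and
the structure of the edge-maximal graphs without such a minor.
-/

namespace Pool.Agent.Lib.MP_4dddeb_co

open SimpleGraph

/-- The set of all 2-connected graphs `H` such that deleting any two vertices from `H` never leaves
a forest. -/
def bigFeedback : Set FinGraph :=
  {X | TwoConnected X.2 ∧ ∀ a b, ¬ (X.2.induce ({a, b}ᶜ : Set (Fin X.1))).IsAcyclic}

variable {V : Type*}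

/-- no minor in `bigFeedback` inside `S` -/
def Free (G : SimpleGraph V) (S : Set V) : Prop := ∀ X ∈ bigFeedback, ¬ MinorIn X.2 G S

theorem Free.mono {G G' : SimpleGraph V} {S S' : Set V} (hS : S ⊆ S')
    (hG : ∀ a ∈ S, ∀ b ∈ S, G.Adj a b → G'.Adj a b) (h : Free G' S') : Free G S :=
  fun X hX hm => h X hX (hm.mono hS hG)

theorem Free.of_sep {G : SimpleGraph V} {S S1 S2 : Set V} {x : V} (h : Sep G S S1 S2 x)
    (h1 : Free G S1) (h2 : Free G S2) : Free G S := by
  intro X hX hm
  rcases minorIn_of_sep h hX.1 hm with hm | hm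
  · exact h1 X hX hm
  · exact h2 X hX hm

/-- If two vertices can be deleted to leave a forest, the graph is free. -/
theorem Free.of_acyclic {G : SimpleGraph V} {S : Set V} {a b : V}
    (h : (G.induce (S \ {a, b})).IsAcyclic) : Free G S := by
  rintro ⟨m, H⟩ ⟨hH, hH2⟩ ⟨B, hBS, hconn, hdisj, hadj⟩
  have hm : 3 ≤ m := hH.1
  have hex : ∀ c : V, ∃ a' : Fin m, ∀ w, c ∈ B w → w = a' := by
    intro c
    by_cases hc : ∃ w, c ∈ B w
    · obtain ⟨w0, hw0⟩ := hc
      refine ⟨w0, fun w hw => ?_⟩
      by_contra hne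
      exact Set.disjoint_left.1 (hdisj w w0 hne) hw hw0
    · push Not at hc
      exact ⟨⟨0, by omega⟩, fun w hw => absurd hw (hc w)⟩
  obtain ⟨a', ha'⟩ := hex a
  obtain ⟨b', hb'⟩ := hex b
  refine hH2 a' b' ?_
  refine acyclic_of_minor (T := S \ {a, b}) h (B := B) ?_ (fun w _ => hconn w) hdisj
    (fun w _ w' _ => hadj w w')
  intro w hw y hy
  refine ⟨hBS w hy, ?_⟩
  simp only [Set.mem_compl_iff, Set.mem_insert_iff, Set.mem_singleton_iff, not_or] at hw ⊢
  constructor
  · rintro rfl; exact hw.1 (ha' w hy)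
  · rintro rfl; exact hw.2 (hb' w hy)

/-- A set with at most three vertices is free. -/
theorem Free.of_card_le {G : SimpleGraph V} {S : Set V} (a b c : V) (h : S ⊆ {a, b, c}) :
    Free G S := by
  apply Free.of_acyclic (a := a) (b := b)
  have : Subsingleton ↑(S \ {a, b}) := by
    constructor
    rintro ⟨x, hx, hx'⟩ ⟨y, hy, hy'⟩
    apply Subtype.ext
    have h1 := h hx
    have h2 := h hy
    simp only [Set.mem_insert_iff, Set.mem_singleton_iff, not_or] at h1 h2 hx' hy'
    have e1 : x = c := by tauto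
    have e2 : y = c := by tauto
    exact e1.trans e2.symm
  exact IsAcyclic.of_subsingleton

theorem Sep.free_pendant {G : SimpleGraph V} {S : Set V} {x y : V} (hx : x ∈ S) (hy : y ∉ S)
    (hG : ∀ z ∈ S, z ≠ x → ¬ G.Adj y z) (h : Free G S) : Free G (insert y S) := by
  have hsep : Sep G (insert y S) {x, y} S x := by
    refine ⟨?_, ?_, ?_⟩
    · ext z; simp only [Set.mem_union, Set.mem_insert_iff, Set.mem_singleton_iff]
      constructor
      · rintro ((rfl | rfl) | h)
        · exact Or.inr hx
        · exact Or.inl rfl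
        · exact Or.inr h
      · rintro (h | h)
        · exact Or.inl (Or.inr h)
        · exact Or.inr h
    · ext z; simp only [Set.mem_inter_iff, Set.mem_insert_iff, Set.mem_singleton_iff]
      constructor
      · rintro ⟨rfl | rfl, h⟩
        · rfl
        · exact absurd h hy
      · rintro rfl; exact ⟨Or.inl rfl, hx⟩
    · intro a ha b hb hax hbx hab
      simp only [Set.mem_insert_iff, Set.mem_singleton_iff] at ha
      rcases ha with rfl | rfl
      · exact hax rfl
      · exact hG b hb hbx hab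
  exact Free.of_sep hsep (Free.of_card_le x y x (by
    intro z hz; simp only [Set.mem_insert_iff, Set.mem_singleton_iff] at hz ⊢; tauto)) h

/-- Every set with at least three vertices either induces a 2-connected graph or has a separation
with both sides of size at least two. -/
theorem exists_sep (G : SimpleGraph V) (S : Set V) (hfin : S.Finite) (hcard : 3 ≤ S.ncard) :
    (Conn G S ∧ ∀ c ∈ S, Conn G (S \ {c})) ∨
    ∃ S1 S2 x, Sep G S S1 S2 x ∧ (∃ p ∈ S1, p ≠ x) ∧ ∃ q ∈ S2, q ≠ x := by
  -- general principle: a non connected set splits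
  have split : ∀ T : Set V, T.Nonempty → ¬ Conn G T → ∃ P Q : Set V, P.Nonempty ∧ Q.Nonempty ∧
      P ∪ Q = T ∧ Disjoint P Q ∧ ∀ a ∈ P, ∀ b ∈ Q, ¬ G.Adj a b := by
    intro T hT hnot
    unfold Conn at hnot
    push Not at hnot
    obtain ⟨u, hu, v, hv, huv⟩ := hnot hT
    refine ⟨{w | w ∈ T ∧ Reach G T u w}, {w | w ∈ T ∧ ¬ Reach G T u w},
      ⟨u, hu, Relation.ReflTransGen.refl⟩, ⟨v, hv, huv⟩, ?_, ?_, ?_⟩
    · ext w
      constructor
      · rintro (⟨h, -⟩ | ⟨h, -⟩) <;> exact h
      · intro h
        by_cases hr : Reach G T u w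
        · exact Or.inl ⟨h, hr⟩
        · exact Or.inr ⟨h, hr⟩
    · rw [Set.disjoint_left]
      rintro w ⟨-, h⟩ ⟨-, h'⟩
      exact h' h
    · rintro a ⟨ha, har⟩ b ⟨hb, hbr⟩ hab
      exact hbr (Relation.ReflTransGen.tail har ⟨hab, ha, hb⟩)
  by_cases hcon : Conn G S
  · by_cases hcut : ∀ c ∈ S, Conn G (S \ {c})
    · exact Or.inl ⟨hcon, hcut⟩
    · right
      push Not at hcut
      obtain ⟨c, hc, hnot⟩ := hcut
      have hne : (S \ {c}).Nonempty := by
        rw [← Set.ncard_pos (hfin.subset Set.sdiff_subset)]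
        have := Set.ncard_sdiff_singleton_add_one hc hfin
        omega
      obtain ⟨P, Q, ⟨p, hp⟩, ⟨q, hq⟩, hPQ, hdisj, hno⟩ := split _ hne hnot
      have hPS : ∀ z ∈ P, z ∈ S ∧ z ≠ c := fun z hz => by
        have : z ∈ S \ {c} := hPQ ▸ Or.inl hz
        exact ⟨this.1, this.2⟩
      have hQS : ∀ z ∈ Q, z ∈ S ∧ z ≠ c := fun z hz => by
        have : z ∈ S \ {c} := hPQ ▸ Or.inr hz
        exact ⟨this.1, this.2⟩
      refine ⟨insert c P, insert c Q, c, ⟨?_, ?_, ?_⟩, ⟨p, Or.inr hp, (hPS p hp).2⟩,
        ⟨q, Or.inr hq, (hQS q hq).2⟩⟩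
      · ext z
        constructor
        · rintro ((rfl | h) | (rfl | h))
          · exact hc
          · exact (hPS z h).1
          · exact hc
          · exact (hQS z h).1
        · intro hz
          by_cases hzc : z = c
          · exact Or.inl (Or.inl hzc)
          · have : z ∈ P ∪ Q := hPQ ▸ ⟨hz, hzc⟩
            rcases this with h | h
            · exact Or.inl (Or.inr h)
            · exact Or.inr (Or.inr h)
      · ext z
        constructor
        · rintro ⟨rfl | h, h'⟩
          · rfl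
          · rcases h' with rfl | h'
            · rfl
            · exact absurd h' (Set.disjoint_left.1 hdisj h)
        · rintro rfl; exact ⟨Or.inl rfl, Or.inl rfl⟩
      · intro a ha b hb hac hbc
        rcases ha with rfl | ha
        · exact absurd rfl hac
        rcases hb with rfl | hb
        · exact absurd rfl hbc
        exact hno a ha b hb
  · right
    have hne : S.Nonempty := by
      rw [← Set.ncard_pos hfin]; omega
    obtain ⟨P, Q, hPne, hQne, hPQ, hdisj, hno⟩ := split S hne hcon
    have hcardPQ : P.ncard + Q.ncard = S.ncard := by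
      rw [← hPQ, Set.ncard_union_eq hdisj (hfin.subset (hPQ ▸ Set.subset_union_left))
        (hfin.subset (hPQ ▸ Set.subset_union_right))]
    -- build a separation when Q has at least two elements
    have build : ∀ P Q : Set V, P.Nonempty → P ∪ Q = S → Disjoint P Q →
        (∀ a ∈ P, ∀ b ∈ Q, ¬ G.Adj a b) → 2 ≤ Q.ncard →
        ∃ S1 S2 x, Sep G S S1 S2 x ∧ (∃ p ∈ S1, p ≠ x) ∧ ∃ q ∈ S2, q ≠ x := by
      intro P Q hPne hPQ hdisj hno hQ
      obtain ⟨c, hc, q, hq, hcq⟩ := (Set.one_lt_ncard (hfin.subset (hPQ ▸ Set.subset_union_right))).1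
        (show 1 < Q.ncard by omega)
      obtain ⟨p, hp⟩ := hPne
      refine ⟨insert c P, Q, c, ⟨?_, ?_, ?_⟩, ⟨p, Or.inr hp, ?_⟩, ⟨q, hq, hcq.symm⟩⟩
      · rw [← hPQ]
        ext z
        constructor
        · rintro ((rfl | h) | h)
          · exact Or.inr hc
          · exact Or.inl h
          · exact Or.inr h
        · rintro (h | h)
          · exact Or.inl (Or.inr h)
          · exact Or.inr h
      · ext z
        constructor
        · rintro ⟨rfl | h, h'⟩
          · rfl
          · exact absurd h' (Set.disjoint_left.1 hdisj h)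
        · rintro rfl; exact ⟨Or.inl rfl, hc⟩
      · intro a ha b hb hac hbc
        rcases ha with rfl | ha
        · exact absurd rfl hac
        exact hno a ha b hb
      · rintro rfl; exact Set.disjoint_left.1 hdisj hp hc
    by_cases hQ : 2 ≤ Q.ncard
    · exact build P Q hPne hPQ hdisj hno hQ
    · exact build Q P hQne (by rw [Set.union_comm]; exact hPQ) hdisj.symm
        (fun a ha b hb hab => hno b hb a ha hab.symm) (by omega)

theorem conn_of_image {W : Type*} {G : SimpleGraph V} {H : SimpleGraph W} {f : W → V}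
    (hf : Function.Injective f) (hadj : ∀ i j, G.Adj (f i) (f j) → H.Adj i j) {P : Set W}
    (h : Conn G (f '' P)) : Conn H P := by
  obtain ⟨hne, hr⟩ := h
  refine ⟨Set.image_nonempty.1 hne, ?_⟩
  intro u hu v hv
  have key : ∀ w, Reach G (f '' P) (f u) w → ∀ w', f w' = w → Reach H P u w' := by
    intro w hw
    unfold Reach at hw
    induction hw with
    | refl => intro w' hw'; rw [hf hw']; exact Relation.ReflTransGen.refl
    | @tail b c _ hbc ih =>
      rintro c' rfl
      obtain ⟨b', hb', rfl⟩ := hbc.2.1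
      obtain ⟨c'', hc'', hcc⟩ := hbc.2.2
      obtain rfl := hf hcc
      exact Relation.ReflTransGen.tail (ih b' rfl) ⟨hadj _ _ hbc.1, hb', hc''⟩
  exact key _ (hr _ ⟨u, hu, rfl⟩ _ ⟨v, hv, rfl⟩) v rfl

/-- A free set inducing a 2-connected graph becomes a forest after deleting two vertices. -/
theorem exists_apex {G : SimpleGraph V} {S : Set V} (hfin : S.Finite) (hcard : 3 ≤ S.ncard)
    (hconn : Conn G S) (hcut : ∀ c ∈ S, Conn G (S \ {c})) (hfree : Free G S) :
    ∃ a ∈ S, ∃ b ∈ S, a ≠ b ∧ (G.induce (S \ {a, b})).IsAcyclic := by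
  classical
  have : Finite S := hfin
  have e : Fin S.ncard ≃ S := by
    have h1 : Nat.card S = S.ncard := rfl
    exact (Finite.equivFinOfCardEq h1).symm
  set H : SimpleGraph (Fin S.ncard) := (G.induce S).comap e with hH
  have hHadj : ∀ i j, H.Adj i j ↔ G.Adj (e i) (e j) := fun i j => Iff.rfl
  set f : Fin S.ncard → V := fun i => (e i : V) with hf
  have hfinj : Function.Injective f := fun i j hij => e.injective (Subtype.ext hij)
  have himg : f '' Set.univ = S := by
    ext z
    constructor
    · rintro ⟨i, -, rfl⟩; exact (e i).2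
    · intro hz; exact ⟨e.symm ⟨z, hz⟩, trivial, by simp [hf]⟩
  have hTC : TwoConnected H := by
    refine ⟨hcard, ?_, ?_⟩
    · have h1 : Conn H Set.univ := conn_of_image hfinj (fun i j h => h) (by rw [himg]; exact hconn)
      exact (induceUnivIso H).connected_iff.1 ((conn_iff _ _).2 h1)
    · intro v
      rw [conn_iff]
      apply conn_of_image hfinj (fun i j h => h)
      have : f '' ({v}ᶜ : Set (Fin S.ncard)) = S \ {f v} := by
        ext z
        constructor
        · rintro ⟨i, hi, rfl⟩
          exact ⟨(e i).2, fun h => hi (hfinj h)⟩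
        · rintro ⟨hz, hzv⟩
          refine ⟨e.symm ⟨z, hz⟩, ?_, by simp [hf]⟩
          rintro (h : e.symm ⟨z, hz⟩ = v)
          apply hzv
          rw [← h]; simp [hf]
      rw [this]
      exact hcut _ (e v).2
  have hmin : MinorIn H G S := by
    refine ⟨fun i => {f i}, ?_, fun i => conn_singleton G _, ?_, ?_⟩
    · rintro i y hy
      obtain rfl : y = f i := hy
      exact (e i).2
    · intro i j hij
      rw [Set.disjoint_singleton]
      exact fun h => hij (hfinj h)
    · intro i j hij
      exact ⟨f i, rfl, f j, rfl, hij⟩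
  have hnot : ¬ ((⟨S.ncard, H⟩ : FinGraph) ∈ bigFeedback) := fun h => hfree _ h hmin
  have hex : ∃ a b, (H.induce ({a, b}ᶜ : Set (Fin S.ncard))).IsAcyclic := by
    by_contra hcon
    push Not at hcon
    exact hnot ⟨hTC, hcon⟩
  obtain ⟨a, b, hab⟩ := hex
  have hac : (G.induce (S \ {f a, f b})).IsAcyclic := by
    refine acyclic_of_minor hab (B := fun v => {i | f i = v}) ?_ ?_ ?_ ?_
    · rintro v ⟨hv, hv'⟩ i (hi : f i = v)
      subst hi
      intro hi
      apply hv'
      rcases hi with hi | hi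
      · left; rw [hi]
      · right
        have : i = b := hi
        rw [this]; rfl
    · rintro v ⟨hv, -⟩
      have : {i | f i = v} = {e.symm ⟨v, hv⟩} := by
        ext i
        constructor
        · rintro rfl; simp [hf]
        · rintro h
          have h' : i = e.symm ⟨v, hv⟩ := h
          rw [h']; simp [hf]
      rw [this]; exact conn_singleton _ _
    · intro v w hvw
      rw [Set.disjoint_left]
      rintro i (h1 : f i = v) (h2 : f i = w)
      exact hvw (h1.symm.trans h2)
    · rintro v ⟨hv, -⟩ w ⟨hw, -⟩ hvw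
      refine ⟨e.symm ⟨v, hv⟩, by simp [hf], e.symm ⟨w, hw⟩, by simp [hf], ?_⟩
      rw [hHadj]; simpa using hvw
  by_cases hne : a = b
  · subst hne
    obtain ⟨c, hc, hca⟩ : ∃ c ∈ S, c ≠ f a := by
      by_contra hcon
      push Not at hcon
      have : S ⊆ {f a} := fun c hc => hcon c hc
      have := Set.ncard_le_ncard this
      rw [Set.ncard_singleton] at this
      omega
    refine ⟨f a, (e a).2, c, hc, hca.symm, ?_⟩
    refine acyclic_mono ?_ (fun _ _ _ _ h => h) hac
    rintro z ⟨hz, hz'⟩
    refine ⟨hz, ?_⟩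
    simp only [Set.mem_insert_iff, Set.mem_singleton_iff, not_or] at hz' ⊢
    exact ⟨hz'.1, hz'.1⟩
  · exact ⟨f a, (e a).2, f b, (e b).2, fun h => hne (hfinj h), hac⟩

theorem sup_edge_adj'' (G : SimpleGraph V) (a b u v : V) :
    (G ⊔ edge a b).Adj u v ↔ G.Adj u v ∨ (u ≠ v ∧ ((u = a ∧ v = b) ∨ (u = b ∧ v = a))) := by
  rw [sup_adj, edge_adj]
  tauto

/-- A new vertex with at most one neighbour can be given one more neighbour. -/
theorem exists_attach (n : ℕ) : ∀ (S : Set V), S.Finite → S.ncard = n → 2 ≤ n →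
    ∀ (G : SimpleGraph V) (x y : V), x ∈ S → y ∉ S → (∀ z ∈ S, z ≠ x → ¬ G.Adj y z) →
      Free G S → ∃ z ∈ S, z ≠ x ∧ Free (G ⊔ edge y z) (insert y S) := by
  induction n using Nat.strong_induction_on with
  | _ n ih =>
  intro S hfin hcard hn G x y hx hy hG hfree
  by_cases hn2 : n = 2
  · subst hn2
    obtain ⟨z, hz, hzx⟩ : ∃ z ∈ S, z ≠ x := by
      by_contra hcon
      push Not at hcon
      have : S ⊆ {x} := fun c hc => hcon c hc
      have := Set.ncard_le_ncard this
      rw [Set.ncard_singleton] at this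
      omega
    refine ⟨z, hz, hzx, Free.of_card_le y x z ?_⟩
    have h1 : ({x, z} : Set V) = S := by
      apply Set.eq_of_subset_of_ncard_le
      · rintro w (rfl | rfl)
        · exact hx
        · exact hz
      · rw [Set.ncard_pair hzx.symm, hcard]
      · exact hfin
    rw [← h1]
  have hn3 : 3 ≤ S.ncard := by omega
  rcases exists_sep G S hfin hn3 with ⟨hconn, hcut⟩ | ⟨S1, S2, c, hsep, ⟨p, hp1, hpc⟩, q, hq2, hqc⟩
  · obtain ⟨a, ha, b, hb, hab, hac⟩ := exists_apex hfin hn3 hconn hcut hfree
    have hz : ∃ z ∈ ({a, b} : Set V), z ≠ x := by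
      by_cases hax : a = x
      · exact ⟨b, by simp, fun h => hab (hax.trans h.symm)⟩
      · exact ⟨a, by simp, hax⟩
    obtain ⟨z, hz, hzx⟩ := hz
    have hzS : z ∈ S := by
      rcases hz with rfl | hz
      · exact ha
      · have : z = b := hz
        rw [this]; exact hb
    refine ⟨z, hzS, hzx, ?_⟩
    apply Free.of_acyclic (a := a) (b := b)
    have hset : insert y S \ {a, b} = insert y (S \ {a, b}) := by
      ext w
      simp only [Set.mem_sdiff, Set.mem_insert_iff, Set.mem_singleton_iff]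
      constructor
      · rintro ⟨h1 | h1, h2⟩
        · exact Or.inl h1
        · exact Or.inr ⟨h1, h2⟩
      · rintro (h1 | ⟨h1, h2⟩)
        · refine ⟨Or.inl h1, ?_⟩
          rintro (h3 | h3)
          · rw [← h1, h3] at hy; exact hy ha
          · rw [← h1, h3] at hy; exact hy hb
        · exact ⟨Or.inr h1, h2⟩
    rw [hset]
    apply acyclic_pendant (x0 := x)
    · rintro ⟨h, -⟩; exact hy h
    · rintro w ⟨hw, hw'⟩ hyw
      by_contra hwx
      rw [sup_edge_adj''] at hyw
      rcases hyw with h | ⟨-, ⟨-, h⟩ | ⟨h, -⟩⟩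
      · exact hG w hw hwx h
      · exact hw' (h ▸ hz)
      · exact hy (h ▸ hzS)
    · refine acyclic_mono (Set.Subset.refl _) ?_ hac
      rintro u ⟨hu, -⟩ v ⟨hv, -⟩ huv
      rw [sup_edge_adj''] at huv
      rcases huv with h | ⟨-, ⟨h, -⟩ | ⟨-, h⟩⟩
      · exact h
      · exact absurd (h ▸ hu) hy
      · exact absurd (h ▸ hv) hy
  · -- separation
    have main : ∀ S1 S2 : Set V, Sep G S S1 S2 c → (∃ p ∈ S1, p ≠ c) → (∃ q ∈ S2, q ≠ c) →
        x ∈ S1 → ∃ z ∈ S, z ≠ x ∧ Free (G ⊔ edge y z) (insert y S) := by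
      rintro S1 S2 hsep ⟨p, hp1, hpc⟩ ⟨q, hq2, hqc⟩ hx1
      have hS1 : S1 ⊆ S := by rw [← hsep.union]; exact Set.subset_union_left
      have hS2 : S2 ⊆ S := by rw [← hsep.union]; exact Set.subset_union_right
      have hfin1 := hfin.subset hS1
      have hq1 : q ∉ S1 := fun h => hqc (hsep.eq_of_mem h hq2)
      have hlt : S1.ncard < n := by
        rw [← hcard]
        exact Set.ncard_lt_ncard ⟨hS1, fun h => hq1 (h (hS2 hq2))⟩ hfin
      have hge : 2 ≤ S1.ncard := by
        have : 1 < S1.ncard := (Set.one_lt_ncard hfin1).2 ⟨p, hp1, c, hsep.mem1, hpc⟩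
        omega
      obtain ⟨z, hz, hzx, hfz⟩ := ih _ hlt S1 hfin1 rfl hge G x y hx1 (fun h => hy (hS1 h))
        (fun z hz hzx => hG z (hS1 hz) hzx) (hfree.mono hS1 (fun _ _ _ _ h => h))
      refine ⟨z, hS1 hz, hzx, ?_⟩
      have hsep' : Sep (G ⊔ edge y z) (insert y S) (insert y S1) S2 c := by
        refine ⟨?_, ?_, ?_⟩
        · rw [Set.insert_union, hsep.union]
        · ext w
          constructor
          · rintro ⟨rfl | h, h'⟩
            · exact absurd (hS2 h') hy
            · exact hsep.eq_of_mem h h'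
          · rintro rfl; exact ⟨Or.inr hsep.mem1, hsep.mem2⟩
        · intro u hu v hv huc hvc huv
          rw [sup_edge_adj''] at huv
          rcases huv with h | ⟨-, ⟨h1, h2⟩ | ⟨h1, h2⟩⟩
          · rcases hu with rfl | hu
            · by_cases hvx : v = x
              · exact hvc (hsep.eq_of_mem (hvx ▸ hx1) hv)
              · exact hG v (hS2 hv) hvx h
            · exact hsep.noedge u hu v hv huc hvc h
          · exact hvc (hsep.eq_of_mem (h2 ▸ hz) hv)
          · exact hy (h2 ▸ hS2 hv)
      refine Free.of_sep hsep' hfz (hfree.mono hS2 ?_)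
      intro u hu v hv huv
      rw [sup_edge_adj''] at huv
      rcases huv with h | ⟨-, ⟨h, -⟩ | ⟨-, h⟩⟩
      · exact h
      · exact absurd (h ▸ hS2 hu) hy
      · exact absurd (h ▸ hS2 hv) hy
    have hx12 : x ∈ S1 ∪ S2 := by rw [hsep.union]; exact hx
    rcases hx12 with hx1 | hx2
    · exact main S1 S2 hsep ⟨p, hp1, hpc⟩ ⟨q, hq2, hqc⟩ hx1
    · exact main S2 S1 hsep.symm ⟨q, hq2, hqc⟩ ⟨p, hp1, hpc⟩ hx2

end Pool.Agent.Lib.MP_4dddeb_co
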