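import Pool.Agent.Lib.MP_4dddeb_co.Count

/-!
Final estimates for the set `bigFeedback` of 2-connected excluded minors.
-/

namespace Pool.Agent.Lib.MP_4dddeb_co

open SimpleGraph Filter

theorem edgeNumbers_dvd {n k : ℕ} (hn : 3 ≤ n) (hk : k ∈ edgeNumbers bigFeedback n) :
    3 ∣ k ∧ k ≤ 3 * (n - 1) := by
  obtain ⟨G, hG, rfl⟩ := hk
  obtain ⟨b, h1, h2, -⟩ := edge_count hn hG
  exact ⟨by omega, by omega⟩

theorem exists_large {n : ℕ} (hn : 3 ≤ n) :
    ∃ k ∈ edgeNumbers bigFeedback n, 3 * (n - 3) ≤ k := by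
  obtain ⟨G, hle, hG⟩ := exists_edgeMaximal (free_tripod hn)
  refine ⟨_, ⟨G, hG, rfl⟩, (ncard_tripod hn).trans ?_⟩
  exact Set.ncard_le_ncard (edgeSet_mono hle) (Set.toFinite _)

theorem exists_small {n : ℕ} (hn : 3 ≤ n) :
    ∃ k ∈ edgeNumbers bigFeedback n, k + 3 * (n / 4) ≤ 3 * (n - 1) := by
  obtain ⟨G, hle, hG⟩ := exists_edgeMaximal (free_blocks n)
  obtain ⟨b, h1, h2, h3⟩ := edge_count hn hG
  obtain ⟨F, hF, hcard⟩ := cliqueFamily_blocks hle
  have := h3 F hF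
  exact ⟨_, ⟨G, hG, rfl⟩, by omega⟩

theorem bddAbove_edgeNumbers {n : ℕ} (hn : 3 ≤ n) :
    BddAbove (edgeNumbers bigFeedback n) :=
  ⟨3 * (n - 1), fun _ hk => (edgeNumbers_dvd hn hk).2⟩

theorem gap_lower {n : ℕ} (hn : 3 ≤ n) : 3 * (n / 4) ≤ gap bigFeedback n + 6 := by
  obtain ⟨k, hk, hk'⟩ := exists_large hn
  obtain ⟨l, hl, hl'⟩ := exists_small hn
  have h1 : k ≤ sSup (edgeNumbers bigFeedback n) := le_csSup (bddAbove_edgeNumbers hn) hk
  have h2 : sInf (edgeNumbers bigFeedback n) ≤ l := Nat.sInf_le hl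
  unfold gap
  omega

theorem ncard_upper {n : ℕ} (hn : 3 ≤ n) :
    3 * (edgeNumbers bigFeedback n).ncard ≤ gap bigFeedback n + 3 := by
  classical
  have hne : (edgeNumbers bigFeedback n).Nonempty := by
    obtain ⟨k, hk, -⟩ := exists_large hn; exact ⟨k, hk⟩
  set M := sSup (edgeNumbers bigFeedback n) with hM
  set m := sInf (edgeNumbers bigFeedback n) with hm
  have hMm : M ∈ edgeNumbers bigFeedback n := Nat.sSup_mem hne (bddAbove_edgeNumbers hn)
  have hmm : m ∈ edgeNumbers bigFeedback n := Nat.sInf_mem hne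
  have hsub : edgeNumbers bigFeedback n ⊆
      (((Finset.Icc (m / 3) (M / 3)).image (fun i => 3 * i) : Finset ℕ) : Set ℕ) := by
    intro k hk
    have h1 : k ≤ M := le_csSup (bddAbove_edgeNumbers hn) hk
    have h2 : m ≤ k := Nat.sInf_le hk
    obtain ⟨c, rfl⟩ := (edgeNumbers_dvd hn hk).1
    simp only [Finset.coe_image, Set.mem_image, Finset.coe_Icc, Set.mem_Icc]
    exact ⟨c, ⟨by omega, by omega⟩, rfl⟩
  have h1 := Set.ncard_le_ncard hsub (Finset.finite_toSet _)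
  rw [Set.ncard_coe_finset] at h1
  have h2 := (Finset.card_image_le (s := Finset.Icc (m / 3) (M / 3)) (f := fun i => 3 * i))
  rw [Nat.card_Icc] at h2
  have h3 := (edgeNumbers_dvd hn hMm).1
  have h4 := (edgeNumbers_dvd hn hmm).1
  have h5 : m ≤ M := le_csSup (bddAbove_edgeNumbers hn) hmm
  unfold gap
  rw [← hM, ← hm]
  omega

/-- Negated form of Q1 for a set of 2-connected graphs. -/
theorem twoConnected_q1 : ∃ ℋ : Set FinGraph, Suitable ℋ ∧ (∀ X ∈ ℋ, TwoConnected X.2) ∧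
    ∀ C : ℤ, ∃ n : ℕ, 1 ≤ n ∧ C < (gap ℋ n : ℤ) - ((edgeNumbers ℋ n).ncard : ℤ) := by
  refine ⟨bigFeedback, suitable_bigFeedback, fun X hX => hX.1, fun C => ?_⟩
  refine ⟨4 * (C.toNat + 10), by omega, ?_⟩
  have h1 := gap_lower (n := 4 * (C.toNat + 10)) (by omega)
  have h2 := ncard_upper (n := 4 * (C.toNat + 10)) (by omega)
  omega

theorem linearlyImpure_bigFeedback : LinearlyImpure bigFeedback := by
  have h : (1 / 4 : ENNReal) ≤
      liminf (fun n : ℕ => (gap bigFeedback n : ENNReal) / (n : ENNReal)) atTop := by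
    apply le_liminf_of_le
    · isBoundedDefault
    · filter_upwards [eventually_ge_atTop 40] with n hn
      have h1 := gap_lower (n := n) (by omega)
      rw [ENNReal.le_div_iff_mul_le (Or.inl (by simp; omega)) (Or.inl (by simp))]
      rw [one_div, mul_comm, ← div_eq_mul_inv]
      apply ENNReal.div_le_of_le_mul
      have : n ≤ gap bigFeedback n * 4 := by omega
      exact_mod_cast this
  exact lt_of_lt_of_le (by simp) h

/-- Negated form of Q2 for a set of 2-connected graphs. -/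
theorem twoConnected_q2 : ∃ ℋ : Set FinGraph, Suitable ℋ ∧ (∀ X ∈ ℋ, TwoConnected X.2) ∧
    LinearlyImpure ℋ ∧
    (∀ ε : ℝ, 0 < ε → ∀ᶠ n : ℕ in atTop,
      ((edgeNumbers ℋ n).ncard : ℝ) / (gap ℋ n : ℝ) < 1 / 3 + ε) ∧
    ¬ Tendsto (fun n : ℕ => ((edgeNumbers ℋ n).ncard : ℝ) / (gap ℋ n : ℝ)) atTop (nhds 1) := by
  have key : ∀ ε : ℝ, 0 < ε → ∀ᶠ n : ℕ in atTop,
      ((edgeNumbers bigFeedback n).ncard : ℝ) / (gap bigFeedback n : ℝ) < 1 / 3 + ε := by
    intro ε hε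
    obtain ⟨N, hN⟩ := exists_nat_gt (1 / ε)
    filter_upwards [eventually_ge_atTop (4 * (N + 40))] with n hn
    have h1 := gap_lower (n := n) (by omega)
    have h2 := ncard_upper (n := n) (by omega)
    have h3 : N + 1 ≤ gap bigFeedback n := by omega
    have h3' : (N : ℝ) + 1 ≤ (gap bigFeedback n : ℝ) := by exact_mod_cast h3
    have h2' : 3 * ((edgeNumbers bigFeedback n).ncard : ℝ) ≤ (gap bigFeedback n : ℝ) + 3 := by
      exact_mod_cast h2
    have hN0 : (0 : ℝ) ≤ N := Nat.cast_nonneg _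
    have hpos : (0 : ℝ) < (gap bigFeedback n : ℝ) := by linarith
    rw [div_lt_iff₀ hpos]
    have h4 : 1 < ε * N := by
      rw [div_lt_iff₀ hε] at hN; linarith
    nlinarith
  refine ⟨bigFeedback, suitable_bigFeedback, fun X hX => hX.1, linearlyImpure_bigFeedback,
    key, ?_⟩
  intro ht
  have h1 := key (1 / 3) (by norm_num)
  have h2 := ht.eventually (lt_mem_nhds (show (1 / 3 + 1 / 3 : ℝ) < 1 by norm_num))
  obtain ⟨n, hn1, hn2⟩ := (h1.and h2).exists
  linarith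

end Pool.Agent.Lib.MP_4dddeb_co
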