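import Pool.Agent.Lib.MP_4dddeb_co.Defs

/-!
Edge-maximal graphs without two disjoint edges as a minor.
-/

namespace Pool.Agent.Lib.MP_4dddeb_co

open Filter SimpleGraph

/-- The graph on four vertices consisting of two disjoint edges. -/
def twoK2 : SimpleGraph (Fin 4) := edge 0 1 ⊔ edge 2 3

theorem induce_singleton_connected {V : Type*} (G : SimpleGraph V) (v : V) :
    (G.induce ({v} : Set V)).Connected := by
  refine ⟨?_⟩
  rintro ⟨a, ha⟩ ⟨b, hb⟩
  obtain rfl : a = v := ha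
  obtain rfl : b = a := hb
  exact Reachable.refl _

theorem isMinor_twoK2 {V : Type*} (G : SimpleGraph V) :
    IsMinor twoK2 G ↔ ∃ a b c d, G.Adj a b ∧ G.Adj c d ∧ a ≠ c ∧ a ≠ d ∧ b ≠ c ∧ b ≠ d := by
  constructor
  · rintro ⟨B, -, hB, hadj⟩
    obtain ⟨a, ha, b, hb, hab⟩ := hadj 0 1 (by simp [twoK2, edge_adj])
    obtain ⟨c, hc, d, hd, hcd⟩ := hadj 2 3 (by simp [twoK2, edge_adj])
    refine ⟨a, b, c, d, hab, hcd, ?_, ?_, ?_, ?_⟩
    · rintro rfl; exact Set.disjoint_left.1 (hB 0 2 (by decide)) ha hc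
    · rintro rfl; exact Set.disjoint_left.1 (hB 0 3 (by decide)) ha hd
    · rintro rfl; exact Set.disjoint_left.1 (hB 1 2 (by decide)) hb hc
    · rintro rfl; exact Set.disjoint_left.1 (hB 1 3 (by decide)) hb hd
  · rintro ⟨a, b, c, d, hab, hcd, hac, had, hbc, hbd⟩
    have hab' := hab.ne
    have hcd' := hcd.ne
    refine ⟨![{a}, {b}, {c}, {d}], ?_, ?_, ?_⟩
    · intro w
      fin_cases w
      · exact induce_singleton_connected G a
      · exact induce_singleton_connected G b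
      · exact induce_singleton_connected G c
      · exact induce_singleton_connected G d
    · intro w w' hww
      fin_cases w <;> fin_cases w' <;> simp_all [eq_comm]
    · intro w w' hww
      have h : (w = 0 ∧ w' = 1) ∨ (w = 1 ∧ w' = 0) ∨ (w = 2 ∧ w' = 3) ∨ (w = 3 ∧ w' = 2) := by
        revert w w'
        simp only [twoK2, sup_adj, edge_adj]
        decide
      rcases h with ⟨rfl, rfl⟩ | ⟨rfl, rfl⟩ | ⟨rfl, rfl⟩ | ⟨rfl, rfl⟩
      · exact ⟨a, by simp, b, by simp, hab⟩
      · exact ⟨b, by simp, a, by simp, hab.symm⟩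
      · exact ⟨c, by simp, d, by simp, hcd⟩
      · exact ⟨d, by simp, c, by simp, hcd.symm⟩

theorem minorFree_twoK2 {V : Type*} (G : SimpleGraph V) :
    MinorFree {⟨4, twoK2⟩} G ↔
      ∀ a b c d, G.Adj a b → G.Adj c d → a = c ∨ a = d ∨ b = c ∨ b = d := by
  have : MinorFree {⟨4, twoK2⟩} G ↔ ¬ IsMinor twoK2 G := by
    constructor
    · intro h; exact h ⟨4, twoK2⟩ rfl
    · intro h H hH
      obtain rfl : H = ⟨4, twoK2⟩ := hH
      exact h
  rw [this, isMinor_twoK2]
  constructor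
  · intro h a b c d hab hcd
    by_contra hcon
    push Not at hcon
    exact h ⟨a, b, c, d, hab, hcd, hcon.1, hcon.2.1, hcon.2.2.1, hcon.2.2.2⟩
  · rintro h ⟨a, b, c, d, hab, hcd, h1, h2, h3, h4⟩
    rcases h a b c d hab hcd with h | h | h | h
    · exact h1 h
    · exact h2 h
    · exact h3 h
    · exact h4 h

/-- The star with centre `c` on the whole vertex set. -/
def star {V : Type*} (c : V) : SimpleGraph V where
  Adj a b := a ≠ b ∧ (a = c ∨ b = c)
  symm := ⟨fun _ _ h => ⟨h.1.symm, h.2.symm⟩⟩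
  loopless := ⟨fun _ h => h.1 rfl⟩

/-- The triangle `x y z`, all other vertices being isolated. -/
def triangle {V : Type*} (x y z : V) : SimpleGraph V where
  Adj a b := a ≠ b ∧ (a = x ∨ a = y ∨ a = z) ∧ (b = x ∨ b = y ∨ b = z)
  symm := ⟨fun _ _ h => ⟨h.1.symm, h.2.2, h.2.1⟩⟩
  loopless := ⟨fun _ h => h.1 rfl⟩

theorem star_ncard (n : ℕ) (c : Fin n) : (star c).edgeSet.ncard = n - 1 := by
  have h : (star c).edgeSet = (fun w => s(c, w)) '' {w | w ≠ c} := by
    ext e
    induction e using Sym2.ind with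
    | _ a b =>
      simp only [mem_edgeSet, star, Set.mem_image, Set.mem_ofPred_eq, Sym2.eq_iff]
      constructor
      · rintro ⟨hab, rfl | rfl⟩
        · exact ⟨b, hab.symm, Or.inl ⟨rfl, rfl⟩⟩
        · exact ⟨a, hab, Or.inr ⟨rfl, rfl⟩⟩
      · rintro ⟨w, hw, ⟨rfl, rfl⟩ | ⟨rfl, rfl⟩⟩
        · exact ⟨hw.symm, Or.inl rfl⟩
        · exact ⟨hw, Or.inr rfl⟩
  rw [h, Set.ncard_image_of_injective]
  · have : {w | w ≠ c} = (((Finset.univ : Finset (Fin n)).erase c : Finset (Fin n)) : Set (Fin n)) := by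
      ext w; simp
    rw [this, Set.ncard_coe_finset, Finset.card_erase_of_mem (Finset.mem_univ _)]
    simp
  · intro a b hab
    simp only [Sym2.eq_iff] at hab
    rcases hab with ⟨-, h⟩ | ⟨h1, h2⟩
    · exact h
    · rw [h2, ← h1]

theorem triangle_ncard {V : Type*} (x y z : V) (hxy : x ≠ y) (hxz : x ≠ z) (hyz : y ≠ z) :
    (triangle x y z).edgeSet.ncard = 3 := by
  have h : (triangle x y z).edgeSet = {s(x, y), s(x, z), s(y, z)} := by
    ext e
    induction e using Sym2.ind with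
    | _ a b =>
      simp only [mem_edgeSet, triangle, Set.mem_insert_iff, Set.mem_singleton_iff, Sym2.eq_iff]
      constructor
      · rintro ⟨hab, rfl | rfl | rfl, rfl | rfl | rfl⟩ <;> simp_all
      · rintro ((⟨rfl, rfl⟩ | ⟨rfl, rfl⟩) | (⟨rfl, rfl⟩ | ⟨rfl, rfl⟩) | (⟨rfl, rfl⟩ | ⟨rfl, rfl⟩)) <;>
          simp_all [eq_comm]
  rw [h, Set.ncard_eq_three]
  refine ⟨_, _, _, ?_, ?_, ?_, rfl⟩
  · simp only [ne_eq, Sym2.eq_iff]; tauto
  · simp only [ne_eq, Sym2.eq_iff]; tauto
  · simp only [ne_eq, Sym2.eq_iff]; tauto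

/-- Adding an edge: adjacency. -/
theorem sup_edge_adj' {V : Type*} (G : SimpleGraph V) (a b u v : V) :
    (G ⊔ edge a b).Adj u v ↔ G.Adj u v ∨ (u ≠ v ∧ ((u = a ∧ v = b) ∨ (u = b ∧ v = a))) := by
  rw [sup_adj, edge_adj]
  tauto

theorem edgeMaximal_star {n : ℕ} (hn : 4 ≤ n) (c : Fin n) :
    EdgeMaximal {⟨4, twoK2⟩} (star c) := by
  constructor
  · rw [minorFree_twoK2]
    rintro a b c' d ⟨-, h1⟩ ⟨-, h2⟩
    rcases h1 with rfl | rfl <;> rcases h2 with rfl | rfl <;> simp
  · intro a b hab hnadj hfree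
    rw [minorFree_twoK2] at hfree
    have hac : a ≠ c := fun h => hnadj ⟨hab, Or.inl h⟩
    have hbc : b ≠ c := fun h => hnadj ⟨hab, Or.inr h⟩
    obtain ⟨d, hd⟩ : ∃ d : Fin n, d ∉ ({a, b, c} : Finset (Fin n)) := by
      by_contra hcon
      push Not at hcon
      have h1 : (Finset.univ : Finset (Fin n)) ⊆ {a, b, c} := fun x _ => hcon x
      have h2 := Finset.card_le_card h1
      have h3 : ({a, b, c} : Finset (Fin n)).card ≤ 3 := Finset.card_le_three
      simp at h2
      omega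
    simp only [Finset.mem_insert, Finset.mem_singleton, not_or] at hd
    have h1 : (star c ⊔ edge a b).Adj a b := (sup_edge_adj' _ _ _ _ _).2 (Or.inr ⟨hab, by simp⟩)
    have h2 : (star c ⊔ edge a b).Adj c d :=
      (sup_edge_adj' _ _ _ _ _).2 (Or.inl ⟨Ne.symm hd.2.2, Or.inl rfl⟩)
    rcases hfree a b c d h1 h2 with h | h | h | h
    · exact hac h
    · exact hd.1 h.symm
    · exact hbc h
    · exact hd.2.1 h.symm

theorem edgeMaximal_triangle {V : Type*} (x y z : V) (hxy : x ≠ y) (hxz : x ≠ z)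
    (hyz : y ≠ z) : EdgeMaximal {⟨4, twoK2⟩} (triangle x y z) := by
  constructor
  · rw [minorFree_twoK2]
    rintro a b c d ⟨hab, ha, hb⟩ ⟨hcd, hc, hd⟩
    rcases ha with rfl | rfl | rfl <;> rcases hb with rfl | rfl | rfl <;>
      rcases hc with rfl | rfl | rfl <;> rcases hd with rfl | rfl | rfl <;> simp_all
  · intro a b hab hnadj hfree
    rw [minorFree_twoK2] at hfree
    have h1 : (triangle x y z ⊔ edge a b).Adj a b :=
      (sup_edge_adj' _ _ _ _ _).2 (Or.inr ⟨hab, by simp⟩)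
    have hT : ∀ u v, u ≠ v → (u = x ∨ u = y ∨ u = z) → (v = x ∨ v = y ∨ v = z) →
        (triangle x y z ⊔ edge a b).Adj u v := fun u v h h' h'' =>
      (sup_edge_adj' _ _ _ _ _).2 (Or.inl ⟨h, h', h''⟩)
    have hxy' := hfree a b x y h1 (hT x y hxy (by simp) (by simp))
    have hxz' := hfree a b x z h1 (hT x z hxz (by simp) (by simp))
    have hyz' := hfree a b y z h1 (hT y z hyz (by simp) (by simp))
    apply hnadj
    refine ⟨hab, ?_, ?_⟩
    · by_contra hcon
      push Not at hcon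
      obtain ⟨h1, h2, h3⟩ := hcon
      have : b = x ∨ b = y := by tauto
      have : b = x ∨ b = z := by tauto
      have : b = y ∨ b = z := by tauto
      grind
    · by_contra hcon
      push Not at hcon
      obtain ⟨h1, h2, h3⟩ := hcon
      have : a = x ∨ a = y := by tauto
      have : a = x ∨ a = z := by tauto
      have : a = y ∨ a = z := by tauto
      grind

theorem classify {n : ℕ} (hn : 2 ≤ n) (G : SimpleGraph (Fin n))
    (hG : EdgeMaximal {⟨4, twoK2⟩} G) :
    (∃ c, G = star c) ∨ ∃ x y z, x ≠ y ∧ x ≠ z ∧ y ≠ z ∧ G = triangle x y z := by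
  obtain ⟨hfree, hmax⟩ := hG
  rw [minorFree_twoK2] at hfree
  -- there is an edge
  have hedge : ∃ u v, G.Adj u v := by
    by_contra hcon
    push Not at hcon
    have h01 : (⟨0, by omega⟩ : Fin n) ≠ ⟨1, by omega⟩ := by simp
    refine hmax _ _ h01 (hcon _ _) ?_
    rw [minorFree_twoK2]
    intro a b c d h1 h2
    rw [sup_edge_adj'] at h1 h2
    rcases h1 with h1 | h1
    · exact absurd h1 (hcon _ _)
    rcases h2 with h2 | h2
    · exact absurd h2 (hcon _ _)
    rcases h1.2 with ⟨rfl, rfl⟩ | ⟨rfl, rfl⟩ <;> rcases h2.2 with ⟨rfl, rfl⟩ | ⟨rfl, rfl⟩ <;> simp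
  obtain ⟨u, v, huv⟩ := hedge
  -- a common vertex
  by_cases hstar : ∃ c, ∀ a b, G.Adj a b → a = c ∨ b = c
  · obtain ⟨c, hc⟩ := hstar
    left
    refine ⟨c, ?_⟩
    ext a b
    constructor
    · intro h; exact ⟨h.ne, hc a b h⟩
    · rintro ⟨hab, h⟩
      by_contra hcon
      refine hmax a b hab hcon ?_
      rw [minorFree_twoK2]
      have key : ∀ p q, (G ⊔ edge a b).Adj p q → p = c ∨ q = c := by
        intro p q hpq
        rw [sup_edge_adj'] at hpq
        rcases hpq with hpq | ⟨-, ⟨rfl, rfl⟩ | ⟨rfl, rfl⟩⟩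
        · exact hc p q hpq
        · exact h
        · exact h.symm
      intro p q r s h1 h2
      rcases key p q h1 with rfl | rfl <;> rcases key r s h2 with rfl | rfl <;> simp
  · right
    push Not at hstar
    obtain ⟨a, b, hab, hau, hbu⟩ := hstar u
    obtain ⟨c, d, hcd, hcv, hdv⟩ := hstar v
    -- find w adjacent to v, not u
    have hw : ∃ w, G.Adj v w ∧ w ≠ u := by
      rcases hfree u v a b huv hab with h | h | h | h
      · exact absurd h.symm hau
      · exact absurd h.symm hbu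
      · exact ⟨b, h ▸ hab, hbu⟩
      · exact ⟨a, h ▸ hab.symm, hau⟩
    have hw' : ∃ w, G.Adj u w ∧ w ≠ v := by
      rcases hfree u v c d huv hcd with h | h | h | h
      · exact ⟨d, h ▸ hcd, hdv⟩
      · exact ⟨c, h ▸ hcd.symm, hcv⟩
      · exact absurd h.symm hcv
      · exact absurd h.symm hdv
    obtain ⟨w, hvw, hwu⟩ := hw
    obtain ⟨w', huw', hw'v⟩ := hw'
    have hww' : w = w' := by
      rcases hfree v w u w' hvw huw' with h | h | h | h
      · exact absurd h.symm huv.ne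
      · exact absurd h.symm hw'v
      · exact absurd h hwu
      · exact h
    subst hww'
    have huv' := huv.ne
    have huw := huw'.ne
    have hvw' := hvw.ne
    refine ⟨u, v, w, huv', huw, hvw', ?_⟩
    ext p q
    constructor
    · intro hpq
      have h1 := hfree p q u v hpq huv
      have h2 := hfree p q u w hpq huw'
      have h3 := hfree p q v w hpq hvw
      refine ⟨hpq.ne, ?_, ?_⟩
      · by_contra hcon
        push Not at hcon
        obtain ⟨h4, h5, h6⟩ := hcon
        grind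
      · by_contra hcon
        push Not at hcon
        obtain ⟨h4, h5, h6⟩ := hcon
        grind
    · rintro ⟨hpq, hp, hq⟩
      rcases hp with rfl | rfl | rfl <;> rcases hq with rfl | rfl | rfl
      · exact absurd rfl hpq
      · exact huv
      · exact huw'
      · exact huv.symm
      · exact absurd rfl hpq
      · exact hvw
      · exact huw'.symm
      · exact hvw.symm
      · exact absurd rfl hpq

theorem edgeNumbers_twoK2 {n : ℕ} (hn : 4 ≤ n) :
    edgeNumbers {⟨4, twoK2⟩} n = {3, n - 1} := by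
  ext k
  constructor
  · rintro ⟨G, hG, rfl⟩
    rcases classify (by omega) G hG with ⟨c, rfl⟩ | ⟨x, y, z, hxy, hxz, hyz, rfl⟩
    · right; exact star_ncard n c
    · left; exact triangle_ncard x y z hxy hxz hyz
  · rintro (rfl | rfl)
    · refine ⟨triangle ⟨0, by omega⟩ ⟨1, by omega⟩ ⟨2, by omega⟩,
        edgeMaximal_triangle _ _ _ (by simp) (by simp) (by simp),
        triangle_ncard _ _ _ (by simp) (by simp) (by simp)⟩
    · exact ⟨star ⟨0, by omega⟩, edgeMaximal_star hn _, star_ncard n _⟩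

theorem gap_twoK2 {n : ℕ} (hn : 4 ≤ n) : gap {⟨4, twoK2⟩} n = n - 4 := by
  have h : edgeNumbers {⟨4, twoK2⟩} n = (({3, n - 1} : Finset ℕ) : Set ℕ) := by
    rw [edgeNumbers_twoK2 hn]; simp
  have h1 : sSup (edgeNumbers {⟨4, twoK2⟩} n) = n - 1 := by
    apply IsGreatest.csSup_eq
    rw [edgeNumbers_twoK2 hn]
    refine ⟨by simp, ?_⟩
    rintro x (rfl | rfl) <;> omega
  have h2 : sInf (edgeNumbers {⟨4, twoK2⟩} n) = 3 := by
    apply IsLeast.csInf_eq
    rw [edgeNumbers_twoK2 hn]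
    refine ⟨by simp, ?_⟩
    rintro x (rfl | rfl) <;> omega
  rw [gap, h1, h2]
  omega

theorem ncard_twoK2 {n : ℕ} (hn : 4 ≤ n) : (edgeNumbers {⟨4, twoK2⟩} n).ncard ≤ 2 := by
  rw [edgeNumbers_twoK2 hn]
  exact Set.ncard_insert_le _ _ |>.trans (by simp)

theorem suitable_twoK2 : Suitable {⟨4, twoK2⟩} := by
  refine ⟨⟨_, rfl⟩, ?_⟩
  rintro H hH
  obtain rfl : H = ⟨4, twoK2⟩ := hH
  exact ⟨0, 1, by simp [twoK2, edge_adj]⟩

end Pool.Agent.Lib.MP_4dddeb_co
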